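import Pool.Agent.H239R2.Cover.PlanarP1
import Pool.Agent.H239R2.Cover.PlanarP2

set_option autoImplicit false
set_option linter.unusedSectionVars false

/-!
In a planar graph every set `S` of vertices spans at most `3 |S|` edges. Adapted from
`H239R2.Cover.PlanarP1`, `H239R2.Cover.PlanarP2` and `TH455.PlanarSparse` (which treat even girth
bounds) to the girth bound `3` valid for all simple graphs.
-/

namespace Pool.Agent.V11106.UB

open SimpleGraph
open Pool.Agent.H239R2.Planar

open Classical in
theorem planar_three {V : Type} [Fintype V] (G : SimpleGraph V) (hG : IsPlanar G)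
    (A : Finset (Sym2 V)) (hA : (A : Set (Sym2 V)) ⊆ G.edgeSet) :
    A.card ≤ 3 * rk A := by
  have hg : ((3 : ℕ) : ℕ∞) ≤ G.egirth := G.three_le_egirth
  obtain ⟨σ, hσ, heu⟩ := hG
  -- the cycles supported on `A`
  set L := (bdry G).comp (ext0 G A) with hL
  have h1 := LinearMap.finrank_range_add_finrank_ker L
  rw [Module.finrank_fintype_fun_eq_card] at h1
  have h2 : Fintype.card {e : G.edgeSet // e.1 ∈ A} = A.card := by
    rw [← Fintype.card_coe A]
    apply Fintype.card_congr
    exact
      { toFun := fun e => ⟨e.1.1, e.2⟩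
        invFun := fun e => ⟨⟨e.1, hA e.2⟩, e.2⟩
        left_inv := fun _ => rfl
        right_inv := fun _ => rfl }
  have h3 := range_le G A
  rw [← hL] at h3
  -- dimension of the cycle space
  set P := {X : Reg G σ A // (bdr G σ A X).Nonempty} with hP
  have h4 : (LinearMap.ker L).map (ext0 G A) ≤ Submodule.span ℚ (Set.range
      (fun X : P => DD G σ (ind G σ A X.1))) := by
    rintro _ ⟨y, hy, rfl⟩
    have hy' : bdry G (ext0 G A y) = 0 := hy
    have h5 : ext0 G A y ∈ LinearMap.range (DD G σ) := by
      rw [ker_bdry G hσ heu]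
      exact hy'
    obtain ⟨ψ, hψ⟩ := h5
    rw [← hψ]
    apply mem_span_of_supported
    intro d hd
    have h6 : DD G σ ψ ⟨d.edge, d.edge_mem⟩ = 0 := by
      rw [hψ]
      simp [ext0, hd]
    rw [DD_apply, sub_eq_zero] at h6
    rcases (dart_edge_eq_iff _ _).mp (dt_edge G ⟨d.edge, d.edge_mem⟩) with h7 | h7
    · rw [h7] at h6; exact h6
    · rw [h7, Dart.symm_symm] at h6; exact h6.symm
  have h5 : Module.finrank ℚ (LinearMap.ker L) ≤ Fintype.card P := by
    have h6 := Submodule.finrank_mono h4
    rw [← (Submodule.equivMapOfInjective _ (ext0_inj G A) (LinearMap.ker L)).finrank_eq] at h6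
    exact h6.trans (finrank_range_le_card _)
  have h6 : 3 * Fintype.card P ≤ 2 * A.card := by
    refine le_trans ?_ (sum_bdr_le G σ A)
    have h7 : ∑ X : P, (bdr G σ A X.1).card ≤ ∑ X : Reg G σ A, (bdr G σ A X).card := by
      rw [← Finset.sum_subtype (Finset.univ.filter fun X : Reg G σ A =>
        (bdr G σ A X).Nonempty) (by simp) (fun X => (bdr G σ A X).card)]
      exact Finset.sum_le_sum_of_subset (Finset.filter_subset _ _)
    refine le_trans ?_ h7
    rw [mul_comm, ← smul_eq_mul, ← Finset.card_univ]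
    apply Finset.card_nsmul_le_sum
    rintro ⟨X, hX⟩ _
    have h8 := even_card_ge_girth G (bdr G σ A X)
      (fun e he => hA (Finset.mem_filter.mp he).1) hX (bdr_even G hσ A X)
    exact_mod_cast hg.trans h8
  have h8 : A.card ≤ rk A + Fintype.card P := by omega
  omega

section

open Filter Topology
open Pool.Agent.H239R2.Planar.P2
open Classical

theorem sparse3 {V E : Type} [Fintype V] [Fintype E] {tl hd : E → V} {X Y : V → ℝ}
    (h : Good tl hd X Y)
    (hB : ∀ B : Finset E, B.Nonempty →
      (∀ v, Even (B.filter (fun e => tl e = v ∨ hd e = v)).card) → 3 ≤ B.card) :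
    3 * Module.finrank ℚ (Z tl hd) ≤ 2 * Fintype.card E := by
  obtain ⟨δ, hδ, hd'⟩ := exists_delta h.inj
  set W : Finset (Z tl hd →ₗ[ℚ] ℚ) :=
    ((Finset.univ.image (up tl hd X Y δ)) ∪ (Finset.univ.image (dn tl hd X Y δ))).erase 0 with hW
  have hWm : ∀ w ∈ W, w ≠ 0 ∧ ∃ e, up tl hd X Y δ e = w ∨ dn tl hd X Y δ e = w := by
    intro w hw
    simp only [hW, Finset.mem_erase, Finset.mem_union, Finset.mem_image, Finset.mem_univ,
      true_and] at hw
    obtain ⟨h1, ⟨e, he⟩ | ⟨e, he⟩⟩ := hw
    · exact ⟨h1, e, Or.inl he⟩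
    · exact ⟨h1, e, Or.inr he⟩
  -- the functionals separate points
  have hfin : Module.finrank ℚ (Z tl hd) ≤ W.card := by
    let Φ : Z tl hd →ₗ[ℚ] (W → ℚ) := LinearMap.pi (fun w => w.1)
    have hinj : Function.Injective Φ := by
      rw [← LinearMap.ker_eq_bot, LinearMap.ker_eq_bot']
      intro z hz
      have hz' : ∀ w ∈ W, w z = 0 := fun w hw => congrFun hz ⟨w, hw⟩
      have h0 : ∀ w, (∃ e, up tl hd X Y δ e = w ∨ dn tl hd X Y δ e = w) → w z = 0 := by
        rintro w ⟨e, he⟩
        by_cases hw0 : w = 0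
        · rw [hw0]; rfl
        · apply hz'
          simp only [hW, Finset.mem_erase, Finset.mem_union, Finset.mem_image, Finset.mem_univ,
            true_and]
          exact ⟨hw0, he.imp (fun h => ⟨e, h⟩) (fun h => ⟨e, h⟩)⟩
      ext e
      have h1 := h0 _ ⟨e, Or.inl rfl⟩
      have h2 := h0 _ ⟨e, Or.inr rfl⟩
      unfold dn at h2
      rw [LinearMap.add_apply, h1, zero_add, phi_apply] at h2
      simpa using h2
    have := LinearMap.finrank_le_finrank_of_injective hinj
    simpa using this
  -- double counting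
  have hsum : ∑ w ∈ W, (bd tl hd X Y δ w).card ≤ 2 * Fintype.card E := by
    have h1 : ∀ w, (bd tl hd X Y δ w).card = ∑ e : E, if e ∈ bd tl hd X Y δ w then 1 else 0 := by
      intro w
      rw [← Finset.card_filter]
      congr 1
      ext e
      simp
    simp only [h1]
    rw [Finset.sum_comm]
    calc ∑ e : E, ∑ w ∈ W, (if e ∈ bd tl hd X Y δ w then 1 else 0) ≤ ∑ _e : E, 2 := by
          refine Finset.sum_le_sum fun e _ => ?_
          rw [← Finset.card_filter]
          refine (Finset.card_le_card (t := {up tl hd X Y δ e, dn tl hd X Y δ e}) ?_).trans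
            Finset.card_le_two
          intro w hw
          simp only [bd, Finset.mem_filter, Finset.mem_univ, true_and] at hw
          simp only [Finset.mem_insert, Finset.mem_singleton]
          by_contra hcon
          push Not at hcon
          exact hw.2 (iff_of_false (Ne.symm hcon.1) (Ne.symm hcon.2))
      _ = 2 * Fintype.card E := by
          rw [Finset.sum_const, Finset.card_univ, smul_eq_mul, mul_comm]
  have hlow : W.card * 3 ≤ ∑ w ∈ W, (bd tl hd X Y δ w).card := by
    rw [← smul_eq_mul, ← Finset.sum_const]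
    refine Finset.sum_le_sum fun w hw => ?_
    obtain ⟨hw0, e, he⟩ := hWm w hw
    exact hB _ (bd_nonempty h hδ hd' hw0 e he) (bd_even h hδ hd' w)
  omega

end

open Filter Topology in
open Classical in
/-- Sparsity of a graph with a straight-line drawing in the plane. -/
theorem line_three {V : Type} [Fintype V] (G : SimpleGraph V) (hG : HasStraightLineDrawing G)
    (A : Finset (Sym2 V)) (hA : (A : Set (Sym2 V)) ⊆ G.edgeSet) :
    A.card ≤ 3 * rk A := by
  have hg : ((3 : ℕ) : ℕ∞) ≤ G.egirth := G.three_le_egirth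
  obtain ⟨p, hp, -, hcr⟩ := hG
  -- a linear change of coordinates making the abscissas distinct
  obtain ⟨ε, hε⟩ : ∃ ε : ℝ, Function.Injective (fun v => (p v).1 + ε * (p v).2) := by
    have h1 : ∀ q : V × V, ∀ᶠ ε : ℝ in 𝓝[>] (0:ℝ), q.1 ≠ q.2 →
        (p q.1).1 + ε * (p q.1).2 ≠ (p q.2).1 + ε * (p q.2).2 := by
      intro q
      by_cases hq : q.1 = q.2
      · exact Filter.Eventually.of_forall fun _ h => absurd hq h
      by_cases h2 : (p q.1).1 = (p q.2).1
      · have h3 : (p q.1).2 ≠ (p q.2).2 := fun h3 => hq (hp (Prod.ext h2 h3))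
        filter_upwards [eventually_mem_nhdsWithin] with ε hε _ h4
        have hε' : (0:ℝ) < ε := hε
        rw [h2] at h4
        exact h3 (mul_left_cancel₀ hε'.ne' (add_left_cancel h4))
      · have h3 : Tendsto (fun ε : ℝ => ((p q.1).1 + ε * (p q.1).2) - ((p q.2).1 + ε * (p q.2).2))
            (𝓝[>] 0) (𝓝 (((p q.1).1 + 0 * (p q.1).2) - ((p q.2).1 + 0 * (p q.2).2))) := by
          refine Tendsto.mono_left ?_ nhdsWithin_le_nhds
          exact Continuous.tendsto (by fun_prop) 0
        have h4 : (((p q.1).1 + 0 * (p q.1).2) - ((p q.2).1 + 0 * (p q.2).2)) ≠ 0 := by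
          simpa [sub_eq_zero] using h2
        filter_upwards [h3.eventually (isOpen_ne.mem_nhds h4)] with ε hε _ h5
        exact hε (sub_eq_zero.2 h5)
    obtain ⟨ε, h2⟩ := (Filter.eventually_all.2 h1).exists
    refine ⟨ε, fun u v huv => ?_⟩
    by_contra hne
    exact h2 (u, v) hne huv
  set X : V → ℝ := fun v => (p v).1 + ε * (p v).2 with hX
  set Y : V → ℝ := fun v => (p v).2 with hY
  let E : Type := {e : V × V // s(e.1, e.2) ∈ A ∧ X e.1 < X e.2}
  let tl : E → V := fun e => e.1.1
  let hd : E → V := fun e => e.1.2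
  have hgood : P2.Good tl hd X Y := by
    refine ⟨hε, fun e => e.2.2, ?_⟩
    rintro ⟨⟨u, v⟩, hA1, h1⟩ ⟨⟨u', v'⟩, hA2, h2⟩ hef x a1 a2 a3 a4 heq
    simp only [tl, hd] at a1 a2 a3 a4 h1 h2 hA1 hA2
    have adj1 : G.Adj u v := G.mem_edgeSet.1 (hA (by exact_mod_cast hA1))
    have adj2 : G.Adj u' v' := G.mem_edgeSet.1 (hA (by exact_mod_cast hA2))
    have hpt : ∀ a b : V, X a < X b → X a ≤ x → x ≤ X b →
        ∃ q ∈ segment ℝ (p a) (p b), q.2 = Y a + (x - X a) * ((Y b - Y a) / (X b - X a)) ∧
          q.1 + ε * q.2 = x := by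
      intro a b hab ha hb
      have hab' : X b - X a ≠ 0 := by linarith
      set t := (x - X a) / (X b - X a) with ht
      have ht' : t * (X b - X a) = x - X a := by rw [ht]; field_simp
      refine ⟨(1 - t) • p a + t • p b, ⟨1 - t, t, ?_, ?_, by ring, rfl⟩, ?_, ?_⟩
      · rw [sub_nonneg, ht, div_le_one (by linarith)]; linarith
      · rw [ht]; apply div_nonneg <;> linarith
      · simp only [Prod.snd_add, Prod.smul_snd, smul_eq_mul, hY]
        rw [ht]
        ring
      · simp only [Prod.snd_add, Prod.smul_snd, smul_eq_mul, Prod.fst_add, Prod.smul_fst]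
        have : (1 - t) * (p a).1 + t * (p b).1 + ε * ((1 - t) * (p a).2 + t * (p b).2) =
            X a + t * (X b - X a) := by simp only [hX]; ring
        rw [this, ht']
        ring
    obtain ⟨q, q1, q2, q3⟩ := hpt u v h1 a1.le a2.le
    obtain ⟨q', q1', q2', q3'⟩ := hpt u' v' h2 a3 a4
    have hq2 : q.2 = q'.2 := by
      rw [q2, q2']
      exact heq
    have hq : q = q' := by
      refine Prod.ext ?_ hq2
      rw [hq2] at q3
      linarith
    rw [← hq] at q1'
    have hss : s(u, v) ≠ s(u', v') := by
      intro hs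
      rw [Sym2.eq_iff] at hs
      rcases hs with ⟨r1, r2⟩ | ⟨r1, r2⟩
      · subst r1; subst r2; exact hef rfl
      · subst r1; subst r2; linarith
    obtain ⟨w, hw1, -, hw3⟩ := hcr u v u' v' adj1 adj2 hss q q1 q1'
    have hXw : X w = x := by
      rw [← q3, hw3]
    rcases hw1 with hw | hw
    · rw [hw] at hXw; linarith
    · rw [hw] at hXw; linarith
  -- the map to the edges
  have hinj : Function.Injective (fun e : E => s(e.1.1, e.1.2)) := by
    rintro ⟨⟨u, v⟩, hA1, h1⟩ ⟨⟨u', v'⟩, hA2, h2⟩ hs
    simp only at hs h1 h2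
    rw [Sym2.eq_iff] at hs
    rcases hs with ⟨r1, r2⟩ | ⟨r1, r2⟩
    · subst r1; subst r2; rfl
    · subst r1; subst r2; linarith
  have himg : (Finset.univ : Finset E).image (fun e : E => s(e.1.1, e.1.2)) = A := by
    ext a
    simp only [Finset.mem_image, Finset.mem_univ, true_and]
    constructor
    · rintro ⟨e, rfl⟩; exact e.2.1
    · intro ha
      induction a using Sym2.ind with
      | _ u v =>
        have adj : G.Adj u v := G.mem_edgeSet.1 (hA (by exact_mod_cast ha))
        have hne : X u ≠ X v := fun h => adj.ne (hε h)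
        rcases lt_or_gt_of_ne hne with h1 | h1
        · exact ⟨⟨(u, v), ha, h1⟩, rfl⟩
        · exact ⟨⟨(v, u), by rw [Sym2.eq_swap]; exact ha, h1⟩, Sym2.eq_swap⟩
  have hcard : Fintype.card E = A.card := by
    have h1 := congrArg Finset.card himg
    rw [Finset.card_image_of_injective _ hinj, Finset.card_univ] at h1
    exact h1
  -- girth
  have hB : ∀ B : Finset E, B.Nonempty →
      (∀ v, Even (B.filter (fun e => tl e = v ∨ hd e = v)).card) → 3 ≤ B.card := by
    intro B hne hev
    have h1 := even_card_ge_girth G (B.image (fun e : E => s(e.1.1, e.1.2))) ?_ (hne.image _) ?_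
    · rw [Finset.card_image_of_injective _ hinj] at h1
      exact_mod_cast hg.trans h1
    · intro a ha
      simp only [Finset.coe_image, Set.mem_image, Finset.mem_coe] at ha
      obtain ⟨e, -, rfl⟩ := ha
      exact hA (by exact_mod_cast e.2.1)
    · intro v
      rw [Finset.filter_image, Finset.card_image_of_injective _ hinj]
      have h2 := hev v
      have h3 : (B.filter (fun e : E => v ∈ s(e.1.1, e.1.2))) =
          B.filter (fun e => tl e = v ∨ hd e = v) := by
        refine Finset.filter_congr fun e _ => ?_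
        rw [Sym2.mem_iff]
        simp only [tl, hd]
        tauto
      rw [h3]
      exact h2
  have hsp := sparse3 hgood hB
  -- rank
  have hrk : Fintype.card E ≤ rk A + Module.finrank ℚ (P2.Z tl hd) := by
    let D : (E → ℚ) →ₗ[ℚ] (V → ℚ) :=
      Fintype.linearCombination ℚ (fun e : E => (Pi.single e.1.1 1 - Pi.single e.1.2 1 : V → ℚ))
    have h1 := D.finrank_range_add_finrank_ker
    rw [Module.finrank_fintype_fun_eq_card] at h1
    have h2 : Module.finrank ℚ D.range ≤ rk A := by
      unfold rk
      apply Submodule.finrank_mono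
      rw [Fintype.range_linearCombination]
      refine Submodule.span_mono ?_
      rintro _ ⟨e, rfl⟩
      exact ⟨e.1.1, e.1.2, e.2.1, rfl⟩
    have h3 : Module.finrank ℚ D.ker ≤ Module.finrank ℚ (P2.Z tl hd) := by
      apply Submodule.finrank_mono
      intro z hz v
      rw [LinearMap.mem_ker] at hz
      have h4 := congrFun hz v
      simp only [D, Fintype.linearCombination_apply, Finset.sum_apply, Pi.smul_apply,
        Pi.sub_apply, smul_eq_mul, Pi.zero_apply, mul_sub, Finset.sum_sub_distrib] at h4
      have h5 : ∀ g : E → V, (∑ e : E, z e * (Pi.single (g e) (1:ℚ) : V → ℚ) v) =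
          ∑ e : E, if g e = v then z e else 0 := by
        intro g
        refine Finset.sum_congr rfl fun e _ => ?_
        rw [Pi.single_apply]
        by_cases hv : g e = v
        · rw [if_pos hv, if_pos hv.symm, mul_one]
        · rw [if_neg hv, if_neg (Ne.symm hv), mul_zero]
      have h6 := h5 tl
      have h7 := h5 hd
      simp only [tl, hd] at h6 h7
      rw [h6, h7] at h4
      exact (sub_eq_zero.1 h4).symm
    omega
  rw [hcard] at hsp hrk
  omega

section

open Finset

/-- edges of `G` inside `W` -/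
noncomputable def eIn {V : Type} (G : SimpleGraph V) (W : Finset V) : Finset (Sym2 V) := by
  classical exact W.sym2.filter (fun e => e ∈ G.edgeSet)

theorem rk_le {V : Type} [Fintype V] (G : SimpleGraph V) (W : Finset V) (hW : W.Nonempty) :
    rk (eIn G W) + 1 ≤ W.card := by
  classical
  obtain ⟨w, hw⟩ := hW
  let S : Submodule ℚ (V → ℚ) := Submodule.span ℚ
    {x : V → ℚ | ∃ u v : V, s(u, v) ∈ eIn G W ∧ x = Pi.single u 1 - Pi.single v 1}
  let U : Submodule ℚ (V → ℚ) :=
    { carrier := {x | (∀ v, v ∉ W → x v = 0) ∧ ∑ v, x v = 0}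
      zero_mem' := ⟨fun _ _ => rfl, by simp⟩
      add_mem' := by
        rintro x y ⟨h1, h2⟩ ⟨h3, h4⟩
        refine ⟨fun v hv => ?_, ?_⟩
        · simp [h1 v hv, h3 v hv]
        · simp [sum_add_distrib, h2, h4]
      smul_mem' := by
        rintro c x ⟨h1, h2⟩
        refine ⟨fun v hv => ?_, ?_⟩
        · simp [h1 v hv]
        · simp [← mul_sum, h2] }
  have hSU : S ≤ U := by
    apply Submodule.span_le.mpr
    rintro x ⟨u, v, huv, rfl⟩
    have hmem : u ∈ W ∧ v ∈ W := by
      have := (mem_filter.mp huv).1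
      rw [Finset.mk_mem_sym2_iff] at this
      exact this
    refine ⟨fun z hz => ?_, ?_⟩
    · have h1 : z ≠ u := by rintro rfl; exact hz hmem.1
      have h2 : z ≠ v := by rintro rfl; exact hz hmem.2
      simp [Pi.single_apply, h1, h2]
    · simp [sum_sub_distrib, Pi.single_apply]
  let φ : U →ₗ[ℚ] ({v // v ∈ W.erase w} → ℚ) :=
    { toFun := fun x v => x.1 v.1
      map_add' := fun _ _ => rfl
      map_smul' := fun _ _ => rfl }
  have hφ : Function.Injective φ := by
    rw [← LinearMap.ker_eq_bot, LinearMap.ker_eq_bot']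
    rintro ⟨x, hx1, hx2⟩ hx
    have h1 : ∀ v, v ≠ w → x v = 0 := by
      intro v hv
      by_cases hvW : v ∈ W
      · exact congrFun hx ⟨v, mem_erase.mpr ⟨hv, hvW⟩⟩
      · exact hx1 v hvW
    have h2 : x w = 0 := by
      rw [← hx2]
      symm
      apply sum_eq_single
      · intro b _ hb; exact h1 b hb
      · intro h; exact absurd (mem_univ w) h
    apply Subtype.ext
    funext v
    by_cases hv : v = w
    · rw [hv]; exact h2
    · exact h1 v hv
  have h3 : Module.finrank ℚ U ≤ (W.erase w).card := by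
    have := LinearMap.finrank_le_finrank_of_injective hφ
    rw [Module.finrank_fintype_fun_eq_card, Fintype.card_coe] at this
    exact this
  have h4 : Module.finrank ℚ S ≤ Module.finrank ℚ U := Submodule.finrank_mono hSU
  have h5 : (W.erase w).card + 1 = W.card := card_erase_add_one hw
  have h6 : rk (eIn G W) = Module.finrank ℚ S := rfl
  omega


open Classical in
theorem planar_hyp {V : Type} [Fintype V] (G : SimpleGraph V)
    (hG : IsPlanar G ∨ HasStraightLineDrawing G) (S : Finset V) :
    (univ.filter (fun e : Sym2 V => e ∈ G.edgeSet ∧ ∀ v ∈ e, v ∈ S)).card ≤ 3 * S.card := by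
  have h1 : univ.filter (fun e : Sym2 V => e ∈ G.edgeSet ∧ ∀ v ∈ e, v ∈ S) = eIn G S := by
    ext e
    simp only [eIn, mem_filter, mem_univ, true_and, Finset.mem_sym2_iff]
    exact and_comm
  rw [h1]
  rcases S.eq_empty_or_nonempty with rfl | hS
  · simp [eIn]
  · have h2 := rk_le G S hS
    have h3 : (eIn G S : Set (Sym2 V)) ⊆ G.edgeSet := by
      intro e he
      simp only [eIn, Finset.coe_filter, Set.mem_ofPred_eq] at he
      exact he.2
    have h4 : (eIn G S).card ≤ 3 * rk (eIn G S) := by
      rcases hG with hG | hG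
      · exact planar_three G hG _ h3
      · exact line_three G hG _ h3
    omega

end

end Pool.Agent.V11106.UB
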