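import Mathlib

set_option autoImplicit false

/-!
Unit bar visibility representations of graphs.
-/

namespace Pool.Agent.V11106.UB

/-- The bar with left end `b`: a closed horizontal segment of length `1`. -/
def seg (b : ℝ × ℝ) : Set (ℝ × ℝ) := Set.Icc b.1 (b.1 + 1) ×ˢ {b.2}

/-- The bars with left ends `b` and `c` see each other in the arrangement `A` (a set of left
ends): there is a vertical channel `[p, q] × [lower height, upper height]` of positive width
joining them, and it meets no other bar of the arrangement. -/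
def Sees (A : Set (ℝ × ℝ)) (b c : ℝ × ℝ) : Prop :=
  ∃ p q : ℝ, p < q ∧ Set.Icc p q ⊆ Set.Icc b.1 (b.1 + 1) ∧ Set.Icc p q ⊆ Set.Icc c.1 (c.1 + 1) ∧
    ∀ d ∈ A, d ≠ b → d ≠ c →
      Disjoint (seg d) (Set.Icc p q ×ˢ Set.Icc (min b.2 c.2) (max b.2 c.2))

/-- `B` is a `t`-unit-bar visibility representation of `G`: every vertex `v` gets a set `B v` of
at most `t` bars, all bars used are pairwise disjoint, and two distinct vertices are adjacent
exactly when some bar of the first and some bar of the second see each other. -/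
structure IsRep {V : Type} (G : SimpleGraph V) (t : ℕ) (B : V → Finset (ℝ × ℝ)) : Prop where
  card_le : ∀ v, (B v).card ≤ t
  disj : ∀ u v, ∀ b ∈ B u, ∀ c ∈ B v, (u ≠ v ∨ b ≠ c) → Disjoint (seg b) (seg c)
  adj_iff : ∀ u v, u ≠ v →
    (G.Adj u v ↔ ∃ b ∈ B u, ∃ c ∈ B v, Sees {d | ∃ w, d ∈ B w} b c)

/-- The unit bar visibility number: the least positive `t` for which `G` has a
`t`-unit-bar visibility representation. -/
noncomputable def ub {V : Type} (G : SimpleGraph V) : ℕ :=
  sInf {t | 0 < t ∧ ∃ B, IsRep G t B}

end Pool.Agent.V11106.UB
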