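import Mathlib

set_option autoImplicit false

/-!
Decomposition of a graph into trails which visits every vertex rarely.
-/

namespace Pool.Agent.V11106.UB

open SimpleGraph Finset

variable {V : Type}

open Classical in
/-- the number of ends of the list `T` at `v` -/
noncomputable def en (T : List V) (v : V) : ℕ :=
  (if T.head? = some v then 1 else 0) + (if T.getLast? = some v then 1 else 0)

open Classical in
/-- the number of edges of `U` at `v` -/
noncomputable def ed [Fintype V] (U : SimpleGraph V) (v : V) : ℕ :=
  (univ.filter (fun e : Sym2 V => e ∈ U.edgeSet ∧ v ∈ e)).card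

theorem support_head? {U : SimpleGraph V} {a b : V} (p : U.Walk a b) :
    p.support.head? = some a := by
  cases p <;> rfl

theorem support_last? {U : SimpleGraph V} {a b : V} (p : U.Walk a b) :
    p.support.getLast? = some b := by
  rw [List.getLast?_eq_some_getLast p.support_ne_nil, p.getLast_support]

open Classical in
theorem en_walk {U : SimpleGraph V} {a b : V} (p : U.Walk a b) (v : V) :
    en p.support v = (if a = v then 1 else 0) + (if b = v then 1 else 0) := by
  unfold en
  rw [support_head?, support_last?]
  simp only [Option.some.injEq]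

open Classical in
theorem walk_count {U : SimpleGraph V} {a b : V} (p : U.Walk a b) (v : V) :
    p.edges.countP (fun e => decide (v ∈ e)) + en p.support v = 2 * p.support.count v := by
  rw [en_walk]
  induction p with
  | nil =>
    simp only [Walk.edges_nil, List.countP_nil, Walk.support_nil, List.count_singleton]
    rename_i a
    by_cases h : a = v
    · subst h; simp
    · simp [h]
  | cons hadj q ih =>
    rename_i a c b
    simp only [Walk.edges_cons, List.countP_cons, Walk.support_cons, List.count_cons,
      decide_eq_true_eq, Sym2.mem_iff, beq_iff_eq]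
    have hne : a ≠ c := hadj.ne
    by_cases h1 : a = v
    · have h2 : ¬ c = v := fun h => hne (h1.trans h.symm)
      have h3 : (v = a ∨ v = c) := Or.inl h1.symm
      simp only [h1, h2, if_true, if_false] at ih ⊢
      simp only [true_or, if_true]
      omega
    · by_cases h2 : c = v
      · simp only [h1, h2, if_true, if_false] at ih ⊢
        simp only [or_true, if_true]
        omega
      · have h3 : ¬ (v = a ∨ v = c) := by
          rintro (h | h)
          · exact h1 h.symm
          · exact h2 h.symm
        simp only [h1, h2, h3, if_false] at ih ⊢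
        omega

theorem mem_edges_get {U : SimpleGraph V} {a b : V} (p : U.Walk a b) (x y : V)
    (h : s(x, y) ∈ p.edges) : ∃ c, (p.support[c]? = some x ∧ p.support[c + 1]? = some y) ∨
      (p.support[c]? = some y ∧ p.support[c + 1]? = some x) := by
  induction p with
  | nil => simp at h
  | cons hadj q ih =>
    rename_i a c b
    rw [Walk.edges_cons, List.mem_cons] at h
    rcases h with h | h
    · refine ⟨0, ?_⟩
      have h0 : q.support[0]? = some c := by
        rw [← List.head?_eq_getElem?]
        exact support_head? q
      rw [Walk.support_cons]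
      simp only [List.getElem?_cons_zero, List.getElem?_cons_succ, h0, Option.some.injEq]
      rcases Sym2.eq_iff.mp h with ⟨h1, h2⟩ | ⟨h1, h2⟩
      · exact Or.inl ⟨h1.symm, h2.symm⟩
      · exact Or.inr ⟨h2.symm, h1.symm⟩
    · obtain ⟨k, hk⟩ := ih h
      refine ⟨k + 1, ?_⟩
      rw [Walk.support_cons]
      simpa only [List.getElem?_cons_succ] using hk

theorem chain_get {U : SimpleGraph V} {a b : V} (p : U.Walk a b) (c : ℕ) (x y : V)
    (h1 : p.support[c]? = some x) (h2 : p.support[c + 1]? = some y) : U.Adj x y := by
  induction p generalizing c with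
  | nil => simp at h2
  | cons hadj q ih =>
    rename_i a d b
    rw [Walk.support_cons] at h1 h2
    cases c with
    | zero =>
      have h0 : q.support[0]? = some d := by
        rw [← List.head?_eq_getElem?]
        exact support_head? q
      simp only [List.getElem?_cons_zero, List.getElem?_cons_succ, zero_add, h0,
        Option.some.injEq] at h1 h2
      subst h1; subst h2
      exact hadj
    | succ c =>
      simp only [List.getElem?_cons_succ] at h1 h2
      exact ih c h1 h2

open Classical in
theorem trails [Fintype V] : ∀ (n : ℕ) (U : SimpleGraph V),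
    (univ.filter (fun e : Sym2 V => e ∈ U.edgeSet)).card ≤ n →
    ∃ (k : ℕ) (Tr : Fin k → List V), (∀ i, Tr i ≠ []) ∧
      (∀ i c x y, (Tr i)[c]? = some x → (Tr i)[c + 1]? = some y → U.Adj x y) ∧
      (∀ x y, U.Adj x y → ∃ i c, ((Tr i)[c]? = some x ∧ (Tr i)[c + 1]? = some y) ∨
        ((Tr i)[c]? = some y ∧ (Tr i)[c + 1]? = some x)) ∧
      ∀ v, 2 * ∑ i, (Tr i).count v = ed U v + ∑ i, en (Tr i) v ∧ ∑ i, en (Tr i) v ≤ 2 ∧
        (ed U v = 0 → ∑ i, (Tr i).count v = 0) := by
  intro n
  induction n with
  | zero =>
    intro U hU
    have h0 : ∀ e, e ∉ U.edgeSet := by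
      intro e he
      have : e ∈ univ.filter (fun e : Sym2 V => e ∈ U.edgeSet) := by simp [he]
      rw [Finset.card_eq_zero.mp (Nat.le_zero.mp hU)] at this
      simp at this
    refine ⟨0, Fin.elim0, fun i => i.elim0, fun i => i.elim0, ?_, ?_⟩
    · intro x y hxy
      exact absurd ((U.mem_edgeSet).mpr hxy) (h0 _)
    · intro v
      have : ed U v = 0 := by
        unfold ed
        rw [Finset.card_eq_zero, Finset.filter_eq_empty_iff]
        rintro e - ⟨he, -⟩
        exact h0 e he
      simp [this]
  | succ n ih =>
    intro U hU
    by_cases hE : ∃ x y, U.Adj x y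
    swap
    · push Not at hE
      obtain ⟨k, Tr, h⟩ := ih U (by
        have : univ.filter (fun e : Sym2 V => e ∈ U.edgeSet) = ∅ := by
          rw [Finset.filter_eq_empty_iff]
          rintro e - he
          induction e using Sym2.ind with
          | _ x y => exact hE x y he
        rw [this]
        simp)
      exact ⟨k, Tr, h⟩
    obtain ⟨x0, y0, h0⟩ := hE
    have : Nonempty V := ⟨x0⟩
    obtain ⟨a, b, p, hp, hmax⟩ := Walk.exists_isTrail_forall_isTrail_length_le_length U
    -- the trail is not trivial
    have hlen : 0 < p.length := by
      have := hmax _ _ (Walk.cons h0 Walk.nil) (by simp)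
      simp at this
      omega
    -- all edges at the ends are used
    have hend : ∀ x, (U.Adj a x → s(a, x) ∈ p.edges) ∧ (U.Adj b x → s(b, x) ∈ p.edges) := by
      intro x
      constructor
      · intro hx
        by_contra hn
        have h1 : (Walk.cons hx.symm p).IsTrail := by
          rw [Walk.isTrail_cons]
          exact ⟨hp, by rw [Sym2.eq_swap]; exact hn⟩
        have := hmax _ _ _ h1
        simp at this
      · intro hx
        by_contra hn
        have h1 : (Walk.cons hx.symm p.reverse).IsTrail := by
          rw [Walk.isTrail_cons]
          refine ⟨hp.reverse, ?_⟩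
          rw [Sym2.eq_swap, Walk.edges_reverse, List.mem_reverse]
          exact hn
        have := hmax _ _ _ h1
        simp at this
    obtain ⟨U', hU'⟩ : ∃ U' : SimpleGraph V, U' = U.deleteEdges {e | e ∈ p.edges} := ⟨_, rfl⟩
    have hadj' : ∀ x y, U'.Adj x y ↔ U.Adj x y ∧ s(x, y) ∉ p.edges := by
      intro x y
      rw [hU', SimpleGraph.deleteEdges_adj]
      rfl
    have hmem' : ∀ e, e ∈ U'.edgeSet ↔ e ∈ U.edgeSet ∧ e ∉ p.edges := by
      intro e
      induction e using Sym2.ind with
      | _ x y => exact hadj' x y
    obtain ⟨e0, he0⟩ : ∃ e, e ∈ p.edges := by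
      apply List.exists_mem_of_length_pos
      rw [Walk.length_edges]
      exact hlen
    obtain ⟨k, Tr, t1, t2, t3, t4⟩ := ih U' (by
      have h1 : univ.filter (fun e : Sym2 V => e ∈ U'.edgeSet) ⊂
          univ.filter (fun e : Sym2 V => e ∈ U.edgeSet) := by
        rw [Finset.ssubset_iff_of_subset]
        · refine ⟨e0, by simp [Walk.edges_subset_edgeSet p he0], ?_⟩
          simp [hmem', he0]
        · intro e he
          simp only [mem_filter, mem_univ, true_and] at he ⊢
          exact ((hmem' e).mp he).1
      have := Finset.card_lt_card h1
      omega)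
    -- the number of edges at a vertex
    have hed : ∀ v, ed U v = ed U' v + p.edges.countP (fun e => decide (v ∈ e)) := by
      intro v
      have h1 : p.edges.countP (fun e => decide (v ∈ e)) =
          (univ.filter (fun e : Sym2 V => e ∈ p.edges ∧ v ∈ e)).card := by
        rw [List.countP_eq_length_filter, ← List.toFinset_card_of_nodup (hp.edges_nodup.filter _)]
        congr 1
        ext e
        simp
      rw [h1]
      unfold ed
      rw [← Finset.card_union_of_disjoint]
      · congr 1
        ext e
        simp only [mem_filter, mem_univ, true_and, mem_union, hmem']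
        constructor
        · rintro ⟨h2, h3⟩
          by_cases h4 : e ∈ p.edges
          · exact Or.inr ⟨h4, h3⟩
          · exact Or.inl ⟨⟨h2, h4⟩, h3⟩
        · rintro (⟨⟨h2, _⟩, h3⟩ | ⟨h2, h3⟩)
          · exact ⟨h2, h3⟩
          · exact ⟨Walk.edges_subset_edgeSet p h2, h3⟩
      · rw [Finset.disjoint_left]
        intro e he1 he2
        simp only [mem_filter, mem_univ, true_and, hmem'] at he1 he2
        exact he1.1.2 he2.1
    have hzero : ∀ v, (v = a ∨ v = b) → ed U' v = 0 := by
      intro v hv
      unfold ed
      rw [Finset.card_eq_zero, Finset.filter_eq_empty_iff]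
      rintro e - ⟨he, hve⟩
      rw [hmem'] at he
      obtain ⟨x, rfl⟩ := hve
      rcases hv with rfl | rfl
      · exact he.2 ((hend x).1 he.1)
      · exact he.2 ((hend x).2 he.1)
    have hpos : ∀ v, (v = a ∨ v = b) → 0 < ed U v := by
      intro v hv
      rw [hed, hzero v hv, zero_add, List.countP_pos_iff]
      rcases hv with rfl | rfl
      · cases p with
        | nil => simp at hlen
        | cons h q =>
          refine ⟨_, by rw [Walk.edges_cons]; exact List.mem_cons_self, ?_⟩
          simp
      · have hr : 0 < p.reverse.length := by simpa using hlen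
        have : ∃ e ∈ p.reverse.edges, decide (v ∈ e) = true := by
          cases hq : p.reverse with
          | nil => rw [hq] at hr; simp at hr
          | cons h q =>
            refine ⟨_, by rw [Walk.edges_cons]; exact List.mem_cons_self, ?_⟩
            simp
        obtain ⟨e, h1, h2⟩ := this
        rw [Walk.edges_reverse, List.mem_reverse] at h1
        exact ⟨e, h1, h2⟩
    refine ⟨k + 1, Fin.cons p.support Tr, ?_, ?_, ?_, ?_⟩
    · intro i
      refine Fin.cases ?_ (fun j => ?_) i
      · simp
      · simpa using t1 j
    · intro i
      refine Fin.cases ?_ (fun j => ?_) i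
      · intro c x y
        simpa using chain_get p c x y
      · intro c x y h1 h2
        exact ((hadj' x y).mp (t2 j c x y (by simpa using h1) (by simpa using h2))).1
    · intro x y hxy
      by_cases h1 : s(x, y) ∈ p.edges
      · obtain ⟨c, hc⟩ := mem_edges_get p x y h1
        exact ⟨0, c, by simpa using hc⟩
      · obtain ⟨i, c, hc⟩ := t3 x y ((hadj' x y).mpr ⟨hxy, h1⟩)
        exact ⟨i.succ, c, by simpa using hc⟩
    · intro v
      obtain ⟨s1, s2, s3⟩ := t4 v
      have s4 := walk_count p v
      have s5 := hed v
      rw [Fin.sum_univ_succ, Fin.sum_univ_succ]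
      simp only [Fin.cons_zero, Fin.cons_succ]
      have s6 := en_walk p v
      by_cases hv : v = a ∨ v = b
      · have s7 := hzero v hv
        have s8 := hpos v hv
        have s9 := s3 s7
        refine ⟨by omega, ?_, fun h => by omega⟩
        have s10 : en p.support v ≤ 2 := by
          rw [s6]
          split_ifs <;> omega
        omega
      · push Not at hv
        rw [if_neg (Ne.symm hv.1), if_neg (Ne.symm hv.2)] at s6
        refine ⟨by omega, by omega, fun h => ?_⟩
        have s7 := s3 (by omega)
        omega

end Pool.Agent.V11106.UB
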