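import Pool.Agent.V11106.UB.Geo
import Pool.Agent.V11106.UB.Trail

set_option autoImplicit false

/-!
A representation from a family of trails and a family of leaves.
-/

namespace Pool.Agent.V11106.UB

open Finset

/-- a list of inner cells `T`, with the cells `a` and `b` at the two ends -/
def pad {V : Type} (a : Option V) (T : List V) (b : Option V) : List (Option V) :=
  a :: (T.map some ++ [b])

/-- the content of the cell `c` -/
def cl {V : Type} (L : List (Option V)) (c : ℕ) : Option V := (L[c]?).join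

theorem cl_zero {V : Type} (a : Option V) (T : List V) (b : Option V) : cl (pad a T b) 0 = a := by
  simp [cl, pad]

theorem cl_mid {V : Type} (a : Option V) (T : List V) (b : Option V) (c : ℕ)
    (hc : c < T.length) : cl (pad a T b) (c + 1) = T[c]? := by
  simp [cl, pad, List.getElem?_append_left, hc]

theorem cl_last {V : Type} (a : Option V) (T : List V) (b : Option V) :
    cl (pad a T b) (T.length + 1) = b := by
  simp [cl, pad]

theorem cl_out {V : Type} (a : Option V) (T : List V) (b : Option V) (c : ℕ)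
    (hc : T.length + 1 < c) : cl (pad a T b) c = none := by
  unfold cl pad
  rw [List.getElem?_eq_none]
  · rfl
  · simp
    omega

open Classical in
theorem sum_cl {V : Type} (L : List (Option V)) (v : V) (K : ℕ) (hK : L.length ≤ K) :
    ∑ c ∈ range K, (if cl L c = some v then 1 else 0) = L.count (some v) := by
  induction L generalizing K with
  | nil => simp [cl]
  | cons a L ih =>
    obtain ⟨K, rfl⟩ : ∃ K', K = K' + 1 := ⟨K - 1, by simp at hK; omega⟩
    rw [Finset.sum_range_succ', List.count_cons]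
    have h1 := ih K (by simpa using hK)
    have h2 : ∀ c, cl (a :: L) (c + 1) = cl L c := by
      intro c
      simp [cl]
    have h3 : cl (a :: L) 0 = a := by simp [cl]
    simp only [h2, h3, h1]
    congr 1
    by_cases h : a = some v
    · simp [h]
    · simp [h]

open Classical in
theorem count_pad {V : Type} (a : Option V) (T : List V) (b : Option V) (v : V) :
    (pad a T b).count (some v) =
      T.count v + ((if a = some v then 1 else 0) + (if b = some v then 1 else 0)) := by
  unfold pad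
  rw [List.count_cons, List.count_append, List.count_map_of_injective _ _ (Option.some_injective _)]
  rw [List.count_singleton]
  by_cases h1 : a = some v <;> by_cases h2 : b = some v <;> simp [h1, h2]

open Classical in
theorem assemble {V ι : Type} [Fintype V] [Fintype ι] (G U : SimpleGraph V) (hU : U ≤ G)
    (C : V → Finset V) (hC : ∀ x, ∀ y ∈ C x, G.Adj x y)
    (hcov : ∀ x y, G.Adj x y → U.Adj x y ∨ y ∈ C x ∨ x ∈ C y)
    (Tr : ι → List V) (t1 : ∀ i, Tr i ≠ [])
    (t2 : ∀ i c x y, (Tr i)[c]? = some x → (Tr i)[c + 1]? = some y → U.Adj x y)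
    (t3 : ∀ x y, U.Adj x y → ∃ i c, ((Tr i)[c]? = some x ∧ (Tr i)[c + 1]? = some y) ∨
        ((Tr i)[c]? = some y ∧ (Tr i)[c + 1]? = some x))
    (t : ℕ) (ht : ∀ v, ∑ i, (Tr i).count v + (univ.filter (fun x => v ∈ C x)).card ≤ t)
    (hs : ∀ v, (C v).card ≤ ∑ i, (Tr i).count v + ∑ i, en (Tr i) v) :
    ∃ B, IsRep G t B := by
  set K : ℕ := (∑ i, (Tr i).length) + 5 with hKdef
  have hlen : ∀ i, (Tr i).length + 5 ≤ K := by
    intro i
    have := Finset.single_le_sum (f := fun i => (Tr i).length) (fun _ _ => Nat.zero_le _)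
      (Finset.mem_univ i)
    omega
  have hpos : ∀ i, 0 < (Tr i).length := fun i => List.length_pos_iff.mpr (t1 i)
  -- centres of the slots
  obtain ⟨cen, hcen⟩ : ∃ cen : ι → ℕ → Option V,
      ∀ i m, cen i m = cl (pad (Tr i).head? (Tr i) (Tr i).getLast?) m := ⟨_, fun _ _ => rfl⟩
  have cen0 : ∀ i, cen i 0 = (Tr i)[0]? := by
    intro i
    rw [hcen, cl_zero, List.head?_eq_getElem?]
  have cenm : ∀ i c, c < (Tr i).length → cen i (c + 1) = (Tr i)[c]? := by
    intro i c hc
    rw [hcen, cl_mid _ _ _ _ hc]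
  have cenl : ∀ i, cen i ((Tr i).length + 1) = (Tr i)[(Tr i).length - 1]? := by
    intro i
    rw [hcen, cl_last, List.getLast?_eq_getElem?]
  have ceno : ∀ i c, (Tr i).length + 1 < c → cen i c = none := by
    intro i c hc
    rw [hcen, cl_out _ _ _ _ hc]
  obtain ⟨S, hS⟩ : ∃ S : V → Finset (ι × ℕ), ∀ x p,
      p ∈ S x ↔ p.2 < K ∧ cen p.1 p.2 = some x :=
    ⟨fun x => (univ ×ˢ range K).filter (fun p => cen p.1 p.2 = some x), fun x p => by simp⟩
  have hScard : ∀ x, (S x).card = ∑ i, (Tr i).count x + ∑ i, en (Tr i) x := by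
    intro x
    have h1 : S x = (univ ×ˢ range K).filter (fun p => cen p.1 p.2 = some x) := by
      ext p
      rw [hS]
      simp
    rw [h1, Finset.card_filter, Finset.sum_product, ← Finset.sum_add_distrib]
    refine Finset.sum_congr rfl fun i _ => ?_
    simp only [hcen]
    rw [sum_cl _ _ _ (by have := hlen i; simp [pad]; omega), count_pad]
    rfl
  have hφ : ∀ x, Nonempty ({y // y ∈ C x} ↪ {p // p ∈ S x}) := by
    intro x
    apply Function.Embedding.nonempty_of_card_le
    rw [Fintype.card_coe, Fintype.card_coe, hScard]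
    exact hs x
  have φ : ∀ x, {y // y ∈ C x} ↪ {p // p ∈ S x} := fun x => (hφ x).some
  obtain ⟨R, hR⟩ : ∃ R : ι → ℕ → V → Prop, ∀ i m y,
      R i m y ↔ ∃ x, ∃ hy : y ∈ C x, (φ x ⟨y, hy⟩ : ι × ℕ) = (i, m) := ⟨_, fun _ _ _ => Iff.rfl⟩
  have hRcen : ∀ i m y, R i m y → ∃ x, y ∈ C x ∧ cen i m = some x ∧ m < K := by
    intro i m y h
    obtain ⟨x, hy, hx⟩ := (hR i m y).mp h
    have h1 := (φ x ⟨y, hy⟩).2
    rw [hS, hx] at h1
    exact ⟨x, hy, h1.2, h1.1⟩
  have hRu : ∀ i m y y', R i m y → R i m y' → y = y' := by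
    intro i m y y' h h'
    obtain ⟨x, hy, hx⟩ := (hR i m y).mp h
    obtain ⟨x', hy', hx'⟩ := (hR i m y').mp h'
    have h1 := (φ x ⟨y, hy⟩).2
    rw [hS, hx] at h1
    have h2 := (φ x' ⟨y', hy'⟩).2
    rw [hS, hx'] at h2
    have h3 : x = x' := by
      have := h1.2.symm.trans h2.2
      exact Option.some.inj this
    subst h3
    have h4 : φ x ⟨y, hy⟩ = φ x ⟨y', hy'⟩ := Subtype.ext (hx.trans hx'.symm)
    have h5 := (φ x).injective h4
    exact congrArg Subtype.val h5
  obtain ⟨F, hF⟩ : ∃ F : ι → ℕ → Option V, ∀ i m y, F i m = some y ↔ R i m y := by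
    refine ⟨fun i m => if h : ∃ y, R i m y then some h.choose else none, fun i m y => ?_⟩
    show (if h : ∃ y, R i m y then some h.choose else none) = some y ↔ R i m y
    constructor
    · intro h
      by_cases h1 : ∃ y, R i m y
      · rw [dif_pos h1] at h
        rw [← Option.some.inj h]
        exact h1.choose_spec
      · rw [dif_neg h1] at h
        simp at h
    · intro h
      have h1 : ∃ y, R i m y := ⟨y, h⟩
      rw [dif_pos h1, hRu i m _ _ h1.choose_spec h]
  have hFcen : ∀ i m y x, F i m = some y → cen i m = some x → y ∈ C x := by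
    intro i m y x h1 h2
    obtain ⟨x', h3, h4, _⟩ := hRcen i m y ((hF i m y).mp h1)
    rw [h2] at h4
    rw [Option.some.inj h4]
    exact h3
  have hFn : ∀ i m y, F i m = some y → m ≤ (Tr i).length + 1 := by
    intro i m y h1
    obtain ⟨x', h3, h4, _⟩ := hRcen i m y ((hF i m y).mp h1)
    by_contra h
    rw [ceno i m (by omega)] at h4
    simp at h4
  -- the cells
  obtain ⟨w, hw⟩ : ∃ w : ι → ℕ → Option V,
      ∀ i m, w i m = cl (pad (F i 0) (Tr i) (F i ((Tr i).length + 1))) m := ⟨_, fun _ _ => rfl⟩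
  have w0 : ∀ i, w i 0 = F i 0 := fun i => by rw [hw, cl_zero]
  have wm : ∀ i c, c < (Tr i).length → w i (c + 1) = (Tr i)[c]? := fun i c hc => by
    rw [hw, cl_mid _ _ _ _ hc]
  have wl : ∀ i, w i ((Tr i).length + 1) = F i ((Tr i).length + 1) := fun i => by
    rw [hw, cl_last]
  have wo : ∀ i c, (Tr i).length + 1 < c → w i c = none := fun i c hc => by
    rw [hw, cl_out _ _ _ _ hc]
  obtain ⟨l, hl⟩ : ∃ l : ι → ℕ → Option V,
      ∀ i m, l i m = if 1 ≤ m ∧ m ≤ (Tr i).length then F i m else none := ⟨_, fun _ _ => rfl⟩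
  have l0 : ∀ i, l i 0 = none := fun i => by rw [hl, if_neg (by omega)]
  have lm : ∀ i d, d < (Tr i).length → l i (d + 1) = F i (d + 1) := fun i d hd => by
    rw [hl, if_pos ⟨by omega, by omega⟩]
  have lo : ∀ i d, (Tr i).length ≤ d → l i (d + 1) = none := fun i d hd => by
    rw [hl, if_neg (by omega)]
  apply rep_of_layout G t K (fun i => (Fintype.equivFin ι i : ℕ)) ?_ w l
  · intro i c h
    have := hlen i
    by_contra hc
    exact h (wo i c (by omega))
  · intro i c h
    rw [hl] at h
    by_cases hc : 1 ≤ c ∧ c ≤ (Tr i).length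
    · obtain ⟨d, rfl⟩ : ∃ d, c = d + 1 := ⟨c - 1, by omega⟩
      rw [wm i d (by omega), List.getElem?_eq_getElem (by omega)]
      simp
    · rw [if_neg hc] at h
      exact absurd rfl h
  · intro i c x y h1 h2
    rcases Nat.eq_zero_or_pos c with rfl | hc
    · rw [w0] at h1
      rw [zero_add] at h2
      have h3 := wm i 0 (hpos i)
      rw [zero_add] at h3
      rw [h3] at h2
      exact (hC _ _ (hFcen i 0 x y h1 (by rw [cen0, h2]))).symm
    · obtain ⟨d, rfl⟩ : ∃ d, c = d + 1 := ⟨c - 1, by omega⟩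
      by_cases hd : d + 1 < (Tr i).length
      · rw [wm i d (by omega)] at h1
        rw [wm i (d + 1) hd] at h2
        exact hU (t2 i d x y h1 h2)
      · by_cases hd2 : d + 1 = (Tr i).length
        · rw [wm i d (by omega)] at h1
          rw [hd2, wl] at h2
          have h3 : cen i ((Tr i).length + 1) = some x := by
            rw [cenl, ← hd2]
            exact h1
          exact hC _ _ (hFcen i _ y x h2 h3)
        · rw [wo i (d + 1 + 1) (by omega)] at h2
          simp at h2
  · intro i c x y h1 h2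
    rw [hl] at h2
    by_cases hc : 1 ≤ c ∧ c ≤ (Tr i).length
    · rw [if_pos hc] at h2
      obtain ⟨d, rfl⟩ : ∃ d, c = d + 1 := ⟨c - 1, by omega⟩
      rw [wm i d (by omega)] at h1
      exact hC _ _ (hFcen i _ y x h2 (by rw [cenm i d (by omega), h1]))
    · rw [if_neg hc] at h2
      simp at h2
  · intro x y hxy
    -- a leaf edge
    have leaf : ∀ x y, y ∈ C x → ∃ i c, (w i c = some y ∧ w i (c + 1) = some x) ∨
        (w i c = some x ∧ w i (c + 1) = some y) ∨ (w i c = some x ∧ l i c = some y) := by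
      intro x y hy
      obtain ⟨i, m, hm⟩ : ∃ i m, (φ x ⟨y, hy⟩ : ι × ℕ) = (i, m) :=
        ⟨(φ x ⟨y, hy⟩ : ι × ℕ).1, (φ x ⟨y, hy⟩ : ι × ℕ).2, rfl⟩
      have h1 : F i m = some y := (hF i m y).mpr ((hR i m y).mpr ⟨x, hy, hm⟩)
      have h2 : cen i m = some x := by
        have h3 := (φ x ⟨y, hy⟩).2
        rw [hS, hm] at h3
        exact h3.2
      have h3 := hFn i m y h1
      refine ⟨i, ?_⟩
      rcases Nat.eq_zero_or_pos m with rfl | hm0
      · refine ⟨0, Or.inl ⟨by rw [w0, h1], ?_⟩⟩
        rw [wm i 0 (hpos i), ← cen0, h2]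
      · obtain ⟨d, rfl⟩ : ∃ d, m = d + 1 := ⟨m - 1, by omega⟩
        by_cases hd : d < (Tr i).length
        · refine ⟨d + 1, Or.inr (Or.inr ⟨?_, ?_⟩)⟩
          · rw [wm i d hd, ← cenm i d hd, h2]
          · rw [hl, if_pos ⟨by omega, by omega⟩, h1]
        · have hd' : d = (Tr i).length := by omega
          have hp := hpos i
          subst hd'
          refine ⟨(Tr i).length, Or.inr (Or.inl ⟨?_, ?_⟩)⟩
          · have h4 := wm i ((Tr i).length - 1) (by omega)
            rw [Nat.sub_add_cancel hp] at h4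
            rw [h4, ← cenl, h2]
          · rw [wl, h1]
    rcases hcov x y hxy with h | h | h
    · obtain ⟨i, c, h1⟩ := t3 x y h
      have aux : ∀ x y : V, (Tr i)[c]? = some x → (Tr i)[c + 1]? = some y →
          w i (c + 1) = some x ∧ w i (c + 1 + 1) = some y := by
        intro x y h2 h3
        obtain ⟨h4, -⟩ := List.getElem?_eq_some_iff.mp h3
        exact ⟨by rw [wm i c (by omega), h2], by rw [wm i (c + 1) h4, h3]⟩
      refine ⟨i, c + 1, ?_⟩
      rcases h1 with ⟨h2, h3⟩ | ⟨h2, h3⟩
      · exact Or.inl (aux x y h2 h3)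
      · exact Or.inr (Or.inl (aux y x h2 h3))
    · obtain ⟨i, c, h1 | h1 | h1⟩ := leaf x y h
      · exact ⟨i, c, Or.inr (Or.inl h1)⟩
      · exact ⟨i, c, Or.inl h1⟩
      · exact ⟨i, c, Or.inr (Or.inr (Or.inl h1))⟩
    · obtain ⟨i, c, h1 | h1 | h1⟩ := leaf y x h
      · exact ⟨i, c, Or.inl h1⟩
      · exact ⟨i, c, Or.inr (Or.inl h1)⟩
      · exact ⟨i, c, Or.inr (Or.inr (Or.inr h1))⟩
  · intro v
    refine le_trans ?_ (ht v)
    -- leaves of `v`
    have hleaf : ((univ ×ˢ range K).filter (fun p : ι × ℕ => F p.1 p.2 = some v)).card ≤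
        (univ.filter (fun x => v ∈ C x)).card := by
      have h1 : ∀ p ∈ (univ ×ˢ range K).filter (fun p : ι × ℕ => F p.1 p.2 = some v),
          ∃ x, ∃ hy : v ∈ C x, (φ x ⟨v, hy⟩ : ι × ℕ) = p := by
        intro p hp
        simp only [mem_filter] at hp
        exact (hR p.1 p.2 v).mp ((hF _ _ _).mp hp.2)
      have : Nonempty V := ⟨v⟩
      choose! g hg using h1
      apply Finset.card_le_card_of_injOn g
      · intro p hp
        obtain ⟨hy, -⟩ := hg p hp
        simp [hy]
      · intro p hp p' hp' he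
        obtain ⟨hy, e1⟩ := hg p hp
        obtain ⟨hy', e2⟩ := hg p' hp'
        have key : ∀ x x' (h : x = x') (hy : v ∈ C x) (hy' : v ∈ C x'),
            (φ x ⟨v, hy⟩ : ι × ℕ) = (φ x' ⟨v, hy'⟩ : ι × ℕ) := by
          rintro x _ rfl hy hy'
          rfl
        rw [← e1, ← e2]
        exact key _ _ he _ _
    have hcount : ∑ i, (Tr i).count v = ((univ ×ˢ range K).filter (fun p : ι × ℕ =>
        cl (pad none (Tr p.1) none) p.2 = some v)).card := by
      rw [Finset.card_filter, Finset.sum_product]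
      refine Finset.sum_congr rfl fun i _ => ?_
      show List.count v (Tr i) =
        ∑ y ∈ range K, if cl (pad none (Tr i) none) y = some v then 1 else 0
      rw [sum_cl _ _ _ (by have := hlen i; simp [pad]; omega), count_pad]
      simp
    refine le_trans ?_ (Nat.add_le_add_left hleaf _)
    rw [hcount]
    simp only [Finset.card_filter]
    rw [← Finset.sum_add_distrib, ← Finset.sum_add_distrib]
    refine Finset.sum_le_sum fun p _ => ?_
    obtain ⟨i, c⟩ := p
    simp only
    rcases Nat.eq_zero_or_pos c with rfl | hc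
    · rw [w0, l0, cl_zero]
      simp
    · obtain ⟨d, rfl⟩ : ∃ d, c = d + 1 := ⟨c - 1, by omega⟩
      by_cases hd : d < (Tr i).length
      · rw [wm i d hd, lm i d hd, cl_mid _ _ _ _ hd]
      · by_cases hd2 : d = (Tr i).length
        · subst hd2
          rw [wl, lo i _ (le_refl _), cl_last]
          simp
        · rw [wo i _ (by omega), lo i _ (by omega)]
          simp
  · intro i j h
    exact (Fintype.equivFin ι).injective (Fin.ext h)

end Pool.Agent.V11106.UB
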