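import Pool.Agent.V11106.UB.Defs

set_option autoImplicit false

/-!
The geometric realisation of a layout: rows of cells, with outer cells.
-/

namespace Pool.Agent.V11106.UB

open Finset

/-- height of the cell `c` (`s = false`: inner, `s = true`: outer) -/
def ht (c : ℕ) (s : Bool) : ℝ :=
  if s then (if c % 2 = 0 then -1 else 2) else (if c % 2 = 0 then 0 else 1)

/-- left end of the bar of cell `c` of row `i` -/
noncomputable def pos (K : ℕ) (i c : ℕ) (s : Bool) : ℝ × ℝ :=
  (3 * ((K * i + c : ℕ) : ℝ) / 5, ht c s)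

theorem close {K i i' c c' : ℕ} (hc : c + 2 ≤ K) (hc' : c' + 2 ≤ K) {z : ℝ}
    (h1 : 3 * ((K * i + c : ℕ) : ℝ) / 5 ≤ z) (h2 : z < 3 * ((K * i + c : ℕ) : ℝ) / 5 + 1)
    (h3 : 3 * ((K * i' + c' : ℕ) : ℝ) / 5 ≤ z) (h4 : z < 3 * ((K * i' + c' : ℕ) : ℝ) / 5 + 1) :
    i = i' ∧ c ≤ c' + 1 ∧ c' ≤ c + 1 := by
  have h5 : K * i + c < K * i' + c' + 2 := by
    by_contra h
    push Not at h
    have h' : ((K * i' + c' + 2 : ℕ) : ℝ) ≤ ((K * i + c : ℕ) : ℝ) := by exact_mod_cast h
    push_cast at h' h1 h4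
    linarith
  have h6 : K * i' + c' < K * i + c + 2 := by
    by_contra h
    push Not at h
    have h' : ((K * i + c + 2 : ℕ) : ℝ) ≤ ((K * i' + c' : ℕ) : ℝ) := by exact_mod_cast h
    push_cast at h' h2 h3
    linarith
  have h7 : i = i' := by
    rcases lt_trichotomy i i' with h | h | h
    · have : K * (i + 1) ≤ K * i' := Nat.mul_le_mul_left K h
      rw [mul_add] at this
      omega
    · exact h
    · have : K * (i' + 1) ≤ K * i := Nat.mul_le_mul_left K h
      rw [mul_add] at this
      omega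
  subst h7
  exact ⟨rfl, by omega, by omega⟩

/-- closed version: two cells of the same parity whose bars meet are equal -/
theorem close2 {K i i' c c' : ℕ} (hc : c + 2 ≤ K) (hc' : c' + 2 ≤ K) {z : ℝ}
    (h1 : 3 * ((K * i + c : ℕ) : ℝ) / 5 ≤ z) (h2 : z ≤ 3 * ((K * i + c : ℕ) : ℝ) / 5 + 1)
    (h3 : 3 * ((K * i' + c' : ℕ) : ℝ) / 5 ≤ z) (h4 : z ≤ 3 * ((K * i' + c' : ℕ) : ℝ) / 5 + 1) :
    i = i' ∧ c ≤ c' + 1 ∧ c' ≤ c + 1 := by
  have h5 : K * i + c < K * i' + c' + 2 := by
    by_contra h
    push Not at h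
    have h' : ((K * i' + c' + 2 : ℕ) : ℝ) ≤ ((K * i + c : ℕ) : ℝ) := by exact_mod_cast h
    push_cast at h' h1 h4
    linarith
  have h6 : K * i' + c' < K * i + c + 2 := by
    by_contra h
    push Not at h
    have h' : ((K * i + c + 2 : ℕ) : ℝ) ≤ ((K * i' + c' : ℕ) : ℝ) := by exact_mod_cast h
    push_cast at h' h2 h3
    linarith
  have h7 : i = i' := by
    rcases lt_trichotomy i i' with h | h | h
    · have : K * (i + 1) ≤ K * i' := Nat.mul_le_mul_left K h
      rw [mul_add] at this
      omega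
    · exact h
    · have : K * (i' + 1) ≤ K * i := Nat.mul_le_mul_left K h
      rw [mul_add] at this
      omega
  subst h7
  exact ⟨rfl, by omega, by omega⟩

theorem ht_eq {c c' : ℕ} {s s' : Bool} (h : ht c s = ht c' s') : c % 2 = c' % 2 ∧ s = s' := by
  unfold ht at h
  rcases Nat.mod_two_eq_zero_or_one c with h1 | h1 <;>
  rcases Nat.mod_two_eq_zero_or_one c' with h2 | h2 <;>
  cases s <;> cases s' <;> simp [h1, h2] at h ⊢ <;> norm_num at h

/-- the bars of different cells are disjoint -/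
theorem seg_disj {K i i' c c' : ℕ} {s s' : Bool} (hc : c + 2 ≤ K) (hc' : c' + 2 ≤ K)
    (h : ¬ (i = i' ∧ c = c' ∧ s = s')) : Disjoint (seg (pos K i c s)) (seg (pos K i' c' s')) := by
  rw [Set.disjoint_left]
  rintro ⟨z, y⟩ ⟨⟨h1, h2⟩, h3⟩ ⟨⟨h4, h5⟩, h6⟩
  simp only [pos, Set.mem_singleton_iff] at h1 h2 h3 h4 h5 h6
  obtain ⟨h7, h8⟩ := ht_eq (h3.symm.trans h6)
  obtain ⟨h9, h10, h11⟩ := close2 hc hc' h1 h2 h4 h5
  exact h ⟨h9, by omega, h8⟩

theorem pos_inj {K i i' c c' : ℕ} {s s' : Bool} (hc : c + 2 ≤ K) (hc' : c' + 2 ≤ K)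
    (h : pos K i c s = pos K i' c' s') : i = i' ∧ c = c' ∧ s = s' := by
  by_contra hne
  have h1 := seg_disj hc hc' hne
  rw [h, Set.disjoint_left] at h1
  refine h1 (a := pos K i' c' s') ?_ ?_ <;>
  · refine ⟨⟨le_refl _, ?_⟩, rfl⟩
    linarith

section

variable {V ι : Type} [Fintype V] [Fintype ι] (G : SimpleGraph V) (t K : ℕ)
  (ρ : ι → ℕ) (w l : ι → ℕ → Option V)

open Classical in
/-- the bars of `v` -/
noncomputable def bars (v : V) : Finset (ℝ × ℝ) :=
  ((univ ×ˢ range K).filter (fun p : ι × ℕ => w p.1 p.2 = some v)).image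
      (fun p => pos K (ρ p.1) p.2 false) ∪
    ((univ ×ˢ range K).filter (fun p : ι × ℕ => l p.1 p.2 = some v)).image
      (fun p => pos K (ρ p.1) p.2 true)

/-- the label of a cell -/
def lab (i : ι) (c : ℕ) (s : Bool) : Option V := if s then l i c else w i c

variable {K ρ w l}

omit [Fintype V] in
theorem mem_bars (hK : ∀ i c, w i c ≠ none → c + 2 ≤ K) (hl : ∀ i c, l i c ≠ none → w i c ≠ none)
    (v : V) (b : ℝ × ℝ) :
    b ∈ bars K ρ w l v ↔ ∃ i c s, lab w l i c s = some v ∧ c + 2 ≤ K ∧ b = pos K (ρ i) c s := by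
  classical
  unfold bars
  simp only [mem_union, mem_image, mem_filter, mem_product, mem_univ, true_and, mem_range,
    Prod.exists]
  constructor
  · rintro (⟨i, c, ⟨hc, h⟩, rfl⟩ | ⟨i, c, ⟨hc, h⟩, rfl⟩)
    · exact ⟨i, c, false, h, hK i c (by rw [h]; simp), rfl⟩
    · exact ⟨i, c, true, h, hK i c (hl i c (by rw [h]; simp)), rfl⟩
  · rintro ⟨i, c, s, h, hc, rfl⟩
    cases s
    · exact Or.inl ⟨i, c, ⟨by omega, h⟩, rfl⟩
    · exact Or.inr ⟨i, c, ⟨by omega, h⟩, rfl⟩

end

open Classical in
theorem rep_of_layout {V ι : Type} [Fintype V] [Fintype ι] (G : SimpleGraph V) (t K : ℕ)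
    (ρ : ι → ℕ) (hρ : Function.Injective ρ) (w l : ι → ℕ → Option V)
    (hK : ∀ i c, w i c ≠ none → c + 2 ≤ K) (hl : ∀ i c, l i c ≠ none → w i c ≠ none)
    (h1 : ∀ i c x y, w i c = some x → w i (c + 1) = some y → G.Adj x y)
    (h2 : ∀ i c x y, w i c = some x → l i c = some y → G.Adj x y)
    (h3 : ∀ x y, G.Adj x y → ∃ i c, (w i c = some x ∧ w i (c + 1) = some y) ∨
      (w i c = some y ∧ w i (c + 1) = some x) ∨ (w i c = some x ∧ l i c = some y) ∨
      (w i c = some y ∧ l i c = some x))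
    (h4 : ∀ v, ((univ ×ˢ range K).filter (fun p : ι × ℕ => w p.1 p.2 = some v)).card +
      ((univ ×ˢ range K).filter (fun p : ι × ℕ => l p.1 p.2 = some v)).card ≤ t) :
    ∃ B, IsRep G t B := by
  refine ⟨bars K ρ w l, ?_, ?_, ?_⟩
  · intro v
    exact (card_union_le _ _).trans ((Nat.add_le_add card_image_le card_image_le).trans (h4 v))
  · intro u v b hb c hc hne
    rw [mem_bars hK hl] at hb hc
    obtain ⟨i, a, s, e1, e2, rfl⟩ := hb
    obtain ⟨j, a', s', e3, e4, rfl⟩ := hc
    apply seg_disj e2 e4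
    rintro ⟨h5, h6, h7⟩
    have h5 := hρ h5
    subst h5; subst h6; subst h7
    rcases hne with h | h
    · rw [e1] at e3
      exact h (Option.some.inj e3)
    · exact h rfl
  · intro u v huv
    constructor
    · intro hadj
      -- a channel between consecutive cells
      have chan1 : ∀ i c x y, w i c = some x → w i (c + 1) = some y → x ≠ y →
          (pos K (ρ i) c false ∈ bars K ρ w l x ∧ pos K (ρ i) (c + 1) false ∈ bars K ρ w l y) ∧
          ∀ b c', ((b = pos K (ρ i) c false ∧ c' = pos K (ρ i) (c + 1) false) ∨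
            (b = pos K (ρ i) (c + 1) false ∧ c' = pos K (ρ i) c false)) →
            Sees {d | ∃ w', d ∈ bars K ρ w l w'} b c' := by
        intro i c x y e1 e2 _
        have c1 := hK i c (by rw [e1]; simp)
        have c2 := hK i (c + 1) (by rw [e2]; simp)
        refine ⟨⟨(mem_bars hK hl _ _).mpr ⟨i, c, false, e1, c1, rfl⟩,
          (mem_bars hK hl _ _).mpr ⟨i, c + 1, false, e2, c2, rfl⟩⟩, ?_⟩
        -- heights
        have hh : ∀ z : ℝ, min (ht c false) (ht (c + 1) false) ≤ z →
            z ≤ max (ht c false) (ht (c + 1) false) → 0 ≤ z ∧ z ≤ 1 := by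
          intro z
          unfold ht
          rcases Nat.mod_two_eq_zero_or_one c with h | h
          · have h' : (c + 1) % 2 = 1 := by omega
            simp [h, h']
            exact fun a b => ⟨a, b⟩
          · have h' : (c + 1) % 2 = 0 := by omega
            simp [h, h']
            exact fun a b => ⟨a, b⟩
        have key : ∀ d ∈ {d | ∃ w', d ∈ bars K ρ w l w'}, d ≠ pos K (ρ i) c false →
            d ≠ pos K (ρ i) (c + 1) false → ∀ z y' : ℝ, (z, y') ∈ seg d →
            3 * ((K * ρ i + (c + 1) : ℕ) : ℝ) / 5 ≤ z → z ≤ 3 * ((K * ρ i + c : ℕ) : ℝ) / 5 + 1 →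
            0 ≤ y' → y' ≤ 1 → False := by
          rintro d ⟨w', hd⟩ hd1 hd2 z y' ⟨⟨g1, g2⟩, g3⟩ g4 g5 g6 g7
          rw [mem_bars hK hl] at hd
          obtain ⟨j, a, s, e3, e4, rfl⟩ := hd
          simp only [pos, Set.mem_singleton_iff] at g1 g2 g3
          have hs : s = false := by
            cases s with
            | false => rfl
            | true =>
              exfalso
              rw [g3] at g6 g7
              unfold ht at g6 g7
              rcases Nat.mod_two_eq_zero_or_one a with h | h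
              · rw [if_pos rfl, if_pos h] at g6
                linarith
              · rw [if_pos rfl, if_neg (by omega)] at g7
                linarith
          subst hs
          have q1 : 3 * ((K * ρ i + c : ℕ) : ℝ) / 5 ≤ z := by
            push_cast at g4 ⊢
            linarith
          have q2 : z ≤ 3 * ((K * ρ i + (c + 1) : ℕ) : ℝ) / 5 + 1 := by
            push_cast at g5 ⊢
            linarith
          obtain ⟨r1, r2, r3⟩ := close2 e4 c1 g1 g2 q1 g5
          obtain ⟨-, r4, r5⟩ := close2 e4 c2 g1 g2 g4 q2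
          have r1' := hρ r1
          subst r1'
          have r6 : a = c ∨ a = c + 1 := by omega
          rcases r6 with rfl | rfl
          · exact hd1 rfl
          · exact hd2 rfl
        have hpq : 3 * ((K * ρ i + (c + 1) : ℕ) : ℝ) / 5 < 3 * ((K * ρ i + c : ℕ) : ℝ) / 5 + 1 := by
          push_cast
          linarith
        have i1 : Set.Icc (3 * ((K * ρ i + (c + 1) : ℕ) : ℝ) / 5)
            (3 * ((K * ρ i + c : ℕ) : ℝ) / 5 + 1) ⊆
            Set.Icc (pos K (ρ i) c false).1 ((pos K (ρ i) c false).1 + 1) := by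
          apply Set.Icc_subset_Icc
          · simp only [pos]; push_cast; linarith
          · exact le_refl _
        have i2 : Set.Icc (3 * ((K * ρ i + (c + 1) : ℕ) : ℝ) / 5)
            (3 * ((K * ρ i + c : ℕ) : ℝ) / 5 + 1) ⊆
            Set.Icc (pos K (ρ i) (c + 1) false).1 ((pos K (ρ i) (c + 1) false).1 + 1) := by
          apply Set.Icc_subset_Icc
          · exact le_refl _
          · simp only [pos]; push_cast; linarith
        rintro b c' (⟨rfl, rfl⟩ | ⟨rfl, rfl⟩)
        · refine ⟨_, _, hpq, i1, i2, fun d hd hd1 hd2 => ?_⟩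
          rw [Set.disjoint_left]
          rintro ⟨z, y'⟩ hz ⟨⟨g4, g5⟩, g6, g7⟩
          obtain ⟨g8, g9⟩ := hh y' g6 g7
          exact key d hd hd1 hd2 z y' hz g4 g5 g8 g9
        · refine ⟨_, _, hpq, i2, i1, fun d hd hd1 hd2 => ?_⟩
          rw [Set.disjoint_left]
          rintro ⟨z, y'⟩ hz ⟨⟨g4, g5⟩, g6, g7⟩
          obtain ⟨g8, g9⟩ := hh y' (by rw [min_comm]; exact g6) (by rw [max_comm]; exact g7)
          exact key d hd hd2 hd1 z y' hz g4 g5 g8 g9
      -- a channel between an inner and an outer cell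
      have chan2 : ∀ i c x y, w i c = some x → l i c = some y →
          (pos K (ρ i) c false ∈ bars K ρ w l x ∧ pos K (ρ i) c true ∈ bars K ρ w l y) ∧
          ∀ b c', ((b = pos K (ρ i) c false ∧ c' = pos K (ρ i) c true) ∨
            (b = pos K (ρ i) c true ∧ c' = pos K (ρ i) c false)) →
            Sees {d | ∃ w', d ∈ bars K ρ w l w'} b c' := by
        intro i c x y e1 e2
        have c1 := hK i c (by rw [e1]; simp)
        refine ⟨⟨(mem_bars hK hl _ _).mpr ⟨i, c, false, e1, c1, rfl⟩,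
          (mem_bars hK hl _ _).mpr ⟨i, c, true, e2, c1, rfl⟩⟩, ?_⟩
        have key : ∀ d ∈ {d | ∃ w', d ∈ bars K ρ w l w'}, d ≠ pos K (ρ i) c false →
            d ≠ pos K (ρ i) c true → ∀ z y' : ℝ, (z, y') ∈ seg d →
            3 * ((K * ρ i + c : ℕ) : ℝ) / 5 ≤ z → z ≤ 3 * ((K * ρ i + c : ℕ) : ℝ) / 5 + 1 →
            min (ht c false) (ht c true) ≤ y' → y' ≤ max (ht c false) (ht c true) → False := by
          rintro d ⟨w', hd⟩ hd1 hd2 z y' ⟨⟨g1, g2⟩, g3⟩ g4 g5 g6 g7
          rw [mem_bars hK hl] at hd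
          obtain ⟨j, a, s, e3, e4, rfl⟩ := hd
          simp only [pos, Set.mem_singleton_iff] at g1 g2 g3
          obtain ⟨r1, r2, r3⟩ := close2 e4 c1 g1 g2 g4 g5
          have r1' := hρ r1
          subst r1'
          have hpar : a % 2 = c % 2 := by
            rw [g3] at g6 g7
            unfold ht at g6 g7
            rcases Nat.mod_two_eq_zero_or_one a with h | h <;>
            rcases Nat.mod_two_eq_zero_or_one c with h' | h' <;>
            cases s <;> simp [h, h'] at g6 g7 ⊢ <;> first | linarith | norm_num at g6 | norm_num at g7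
          have r6 : a = c := by omega
          subst r6
          cases s
          · exact hd1 rfl
          · exact hd2 rfl
        have hpq : 3 * ((K * ρ i + c : ℕ) : ℝ) / 5 < 3 * ((K * ρ i + c : ℕ) : ℝ) / 5 + 1 := by
          linarith
        rintro b c' (⟨rfl, rfl⟩ | ⟨rfl, rfl⟩)
        · refine ⟨_, _, hpq, subset_refl _, subset_refl _, fun d hd hd1 hd2 => ?_⟩
          rw [Set.disjoint_left]
          rintro ⟨z, y'⟩ hz ⟨⟨g4, g5⟩, g6, g7⟩
          exact key d hd hd1 hd2 z y' hz g4 g5 g6 g7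
        · refine ⟨_, _, hpq, subset_refl _, subset_refl _, fun d hd hd1 hd2 => ?_⟩
          rw [Set.disjoint_left]
          rintro ⟨z, y'⟩ hz ⟨⟨g4, g5⟩, g6, g7⟩
          exact key d hd hd2 hd1 z y' hz g4 g5 (by rw [min_comm]; exact g6)
            (by rw [max_comm]; exact g7)
      obtain ⟨i, c, ⟨e1, e2⟩ | ⟨e1, e2⟩ | ⟨e1, e2⟩ | ⟨e1, e2⟩⟩ := h3 u v hadj
      · obtain ⟨⟨m1, m2⟩, m3⟩ := chan1 i c u v e1 e2 huv
        exact ⟨_, m1, _, m2, m3 _ _ (Or.inl ⟨rfl, rfl⟩)⟩
      · obtain ⟨⟨m1, m2⟩, m3⟩ := chan1 i c v u e1 e2 huv.symm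
        exact ⟨_, m2, _, m1, m3 _ _ (Or.inr ⟨rfl, rfl⟩)⟩
      · obtain ⟨⟨m1, m2⟩, m3⟩ := chan2 i c u v e1 e2
        exact ⟨_, m1, _, m2, m3 _ _ (Or.inl ⟨rfl, rfl⟩)⟩
      · obtain ⟨⟨m1, m2⟩, m3⟩ := chan2 i c v u e1 e2
        exact ⟨_, m2, _, m1, m3 _ _ (Or.inr ⟨rfl, rfl⟩)⟩
    · rintro ⟨b, hb, c, hc, p, q, hpq, s1, s2, s3⟩
      rw [mem_bars hK hl] at hb hc
      obtain ⟨i, a, s, e1, e2, rfl⟩ := hb
      obtain ⟨j, a', s', e3, e4, rfl⟩ := hc
      have hp1 := s1 ⟨le_refl p, hpq.le⟩
      have hp2 := s2 ⟨le_refl p, hpq.le⟩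
      have hq1 := s1 ⟨hpq.le, le_refl q⟩
      have hq2 := s2 ⟨hpq.le, le_refl q⟩
      simp only [pos, Set.mem_Icc] at hp1 hp2 hq1 hq2
      obtain ⟨r1, r2, r3⟩ := close e2 e4 hp1.1 (by linarith [hq1.2]) hp2.1 (by linarith [hq2.2])
      have r1' := hρ r1
      subst r1'
      -- blocking
      have block : ∀ (a a' : ℕ) (s' : Bool), l i a ≠ none → a' + 2 ≤ K → a + 2 ≤ K →
          (a = a' + 1 ∨ a' = a + 1) → 3 * ((K * ρ i + a : ℕ) : ℝ) / 5 ≤ p →
          p ≤ 3 * ((K * ρ i + a : ℕ) : ℝ) / 5 + 1 →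
          ∃ d ∈ {d | ∃ w', d ∈ bars K ρ w l w'}, d ≠ pos K (ρ i) a true ∧
            d ≠ pos K (ρ i) a' s' ∧ (p, ht a false) ∈ seg d ∧
            min (ht a true) (ht a' s') ≤ ht a false ∧ ht a false ≤ max (ht a true) (ht a' s') := by
        intro a a' s' hla ha' ha haa hpa hpa2
        obtain ⟨x, hx⟩ := Option.ne_none_iff_exists'.mp (hl i a hla)
        refine ⟨pos K (ρ i) a false, ⟨x, (mem_bars hK hl _ _).mpr ⟨i, a, false, hx, ha, rfl⟩⟩,
          ?_, ?_, ⟨⟨hpa, hpa2⟩, rfl⟩, ?_⟩
        · intro h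
          have := (pos_inj ha ha h).2.2
          simp at this
        · intro h
          have := (pos_inj ha ha' h).2.1
          omega
        · unfold ht
          rcases Nat.mod_two_eq_zero_or_one a with h | h
          · have h' : a' % 2 = 1 := by omega
            cases s' <;> simp [h, h']
          · have h' : a' % 2 = 0 := by omega
            cases s' <;> simp [h, h'] <;> norm_num
      by_cases haa : a = a'
      · subst haa
        cases s <;> cases s'
        · simp only [lab] at e1 e3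
          rw [e1] at e3
          exact absurd (Option.some.inj e3) huv
        · exact h2 i a u v e1 e3
        · exact (h2 i a v u e3 e1).symm
        · simp only [lab] at e1 e3
          rw [e1] at e3
          exact absurd (Option.some.inj e3) huv
      · have haa' : a = a' + 1 ∨ a' = a + 1 := by omega
        cases s with
        | true =>
          exfalso
          obtain ⟨d, hd, d1, d2, d3, d4, d5⟩ := block a a' s' (by
            simp only [lab] at e1
            simp at e1
            rw [e1]; simp) e4 e2 haa' hp1.1 hp1.2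
          have := s3 d hd d1 d2
          rw [Set.disjoint_left] at this
          exact this d3 ⟨⟨le_refl p, hpq.le⟩, d4, d5⟩
        | false =>
          cases s' with
          | true =>
            exfalso
            obtain ⟨d, hd, d1, d2, d3, d4, d5⟩ := block a' a false (by
              simp only [lab] at e3
              simp at e3
              rw [e3]; simp) e2 e4 haa'.symm hp2.1 hp2.2
            have := s3 d hd d2 d1
            rw [Set.disjoint_left] at this
            refine this d3 ⟨⟨le_refl p, hpq.le⟩, ?_, ?_⟩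
            · rw [min_comm]; exact d4
            · rw [max_comm]; exact d5
          | false =>
            simp only [lab] at e1 e3
            simp at e1 e3
            rcases haa' with h | h
            · subst h
              exact (h1 i a' v u e3 e1).symm
            · subst h
              exact h1 i a u v e1 e3

end Pool.Agent.V11106.UB
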