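import Pool.Agent.V11106.UB.Fill

set_option autoImplicit false

/-!
Graphs in which every set `S` of vertices spans at most `3 |S|` edges.
-/

namespace Pool.Agent.V11106.UB

open Finset

open Classical in
theorem ed_eq {V : Type} [Fintype V] (U : SimpleGraph V) (v : V) :
    ed U v = (univ.filter (fun x => U.Adj v x)).card := by
  unfold ed
  rw [← Finset.card_image_of_injective (univ.filter (fun x => U.Adj v x))
    (f := fun x => s(v, x))]
  · congr 1
    ext e
    simp only [mem_filter, mem_univ, true_and, mem_image]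
    constructor
    · rintro ⟨h1, h2⟩
      obtain ⟨x, rfl⟩ := h2
      exact ⟨x, h1, rfl⟩
    · rintro ⟨x, h1, rfl⟩
      exact ⟨h1, Sym2.mem_mk_left v x⟩
  · intro x y h
    exact Sym2.congr_right.mp h

open Classical in
theorem rep_of_data {V : Type} [Fintype V] (G U : SimpleGraph V) (hU : U ≤ G)
    (C : V → Finset V) (hC : ∀ x, ∀ y ∈ C x, G.Adj x y)
    (hcov : ∀ x y, G.Adj x y → U.Adj x y ∨ y ∈ C x ∨ x ∈ C y) (t : ℕ)
    (h1 : ∀ v, (univ.filter (fun x => v ∈ C x)).card + ((C v).card + ed U v + 2) / 3 ≤ t)
    (h2 : ∀ v, 0 < ed U v → (univ.filter (fun x => v ∈ C x)).card + ed U v / 2 + 1 ≤ t) :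
    ∃ B, IsRep G t B := by
  obtain ⟨k, Tr, t1, t2, t3, t4⟩ := trails _ U le_rfl
  set vis : V → ℕ := fun v => ∑ i, (Tr i).count v with hvis
  set r : V → ℕ := fun v => ((C v).card + ed U v + 2) / 3 - vis v with hr
  have e1 : ∀ v, ∑ i : Fin k ⊕ (Σ v : V, Fin (r v)),
      (Sum.elim Tr (fun p => [p.1]) i : List V).count v = vis v + r v := by
    intro v
    rw [Fintype.sum_sum_type]
    simp only [Sum.elim_inl, Sum.elim_inr]
    congr 1
    rw [Fintype.sum_sigma]
    simp only [List.count_singleton, Finset.sum_const, Finset.card_univ, Fintype.card_fin,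
      smul_eq_mul, beq_iff_eq, mul_ite, mul_one, mul_zero]
    simp
  have e2 : ∀ v, ∑ i : Fin k ⊕ (Σ v : V, Fin (r v)),
      en (Sum.elim Tr (fun p => [p.1]) i : List V) v = ∑ i, en (Tr i) v + 2 * r v := by
    intro v
    rw [Fintype.sum_sum_type]
    simp only [Sum.elim_inl, Sum.elim_inr]
    congr 1
    rw [Fintype.sum_sigma]
    have h3 : ∀ u : V, en [u] v = if u = v then 2 else 0 := by
      intro u
      unfold en
      by_cases h : u = v <;> simp [h]
    simp only [h3, Finset.sum_const, Finset.card_univ, Fintype.card_fin,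
      smul_eq_mul, mul_ite, mul_zero]
    simp
    ring
  apply assemble G U hU C hC hcov (ι := Fin k ⊕ (Σ v : V, Fin (r v)))
    (Sum.elim Tr (fun p => [p.1])) ?_ ?_ ?_ t ?_ ?_
  · rintro (i | p)
    · exact t1 i
    · simp
  · rintro (i | p) c x y h3 h4
    · exact t2 i c x y h3 h4
    · simp at h4
  · intro x y hxy
    obtain ⟨i, c, h⟩ := t3 x y hxy
    exact ⟨Sum.inl i, c, h⟩
  · intro v
    rw [e1]
    obtain ⟨a1, a2, a3⟩ := t4 v
    have b1 := h1 v
    have b2 := h2 v
    have hrv : r v = ((C v).card + ed U v + 2) / 3 - vis v := rfl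
    have hvv : vis v = ∑ i, (Tr i).count v := rfl
    rw [← hvv] at a1 a3
    rcases Nat.eq_zero_or_pos (ed U v) with h | h
    · have := a3 h
      omega
    · have := b2 h
      omega
  · intro v
    rw [e1, e2]
    obtain ⟨a1, a2, a3⟩ := t4 v
    have hrv : r v = ((C v).card + ed U v + 2) / 3 - vis v := rfl
    have hvv : vis v = ∑ i, (Tr i).count v := rfl
    rw [← hvv] at a1 a3
    omega

open Classical in
/-- an orientation with out-degrees at most `3` -/
theorem orient {V : Type} [Fintype V] (G : SimpleGraph V)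
    (hG : ∀ S : Finset V,
      (univ.filter (fun e : Sym2 V => e ∈ G.edgeSet ∧ ∀ v ∈ e, v ∈ S)).card ≤ 3 * S.card) :
    ∃ O : V → V → Prop, (∀ x y, O x y → G.Adj x y) ∧ (∀ x y, G.Adj x y → O x y ∨ O y x) ∧
      (∀ x y, O x y → ¬ O y x) ∧ ∀ x, (univ.filter (fun y => O x y)).card ≤ 3 := by
  obtain ⟨f, hf, hfT⟩ := (Finset.all_card_le_biUnion_card_iff_exists_injective
    (fun e : {e // e ∈ G.edgeSet} => (univ.filter (fun v => v ∈ e.1)) ×ˢ
      (univ : Finset (Fin 3)))).mp (by
    intro s
    have h1 : s.biUnion (fun e : {e // e ∈ G.edgeSet} => (univ.filter (fun v => v ∈ e.1)) ×ˢ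
        (univ : Finset (Fin 3))) =
        (univ.filter (fun v => ∃ e ∈ s, v ∈ e.1)) ×ˢ (univ : Finset (Fin 3)) := by
      ext ⟨v, j⟩
      simp only [mem_biUnion, mem_product, mem_filter, mem_univ, true_and, and_true]
    rw [h1, Finset.card_product, Finset.card_univ, Fintype.card_fin, mul_comm]
    refine le_trans ?_ (hG _)
    rw [← Finset.card_image_of_injective s Subtype.val_injective]
    apply Finset.card_le_card
    intro e he
    simp only [mem_image] at he
    obtain ⟨e', he', rfl⟩ := he
    simp only [mem_filter, mem_univ, true_and]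
    exact ⟨e'.2, fun v hv => ⟨e', he', hv⟩⟩)
  have hmem : ∀ e, (f e).1 ∈ e.1 := by
    intro e
    have := hfT e
    simp only [mem_product, mem_filter, mem_univ, true_and, and_true] at this
    exact this
  have hswap : ∀ x y (h : G.Adj x y), (⟨s(x, y), h⟩ : {e // e ∈ G.edgeSet}) =
      ⟨s(y, x), h.symm⟩ := by
    intro x y h
    exact Subtype.ext Sym2.eq_swap
  refine ⟨fun x y => ∃ h : G.Adj x y, (f ⟨s(x, y), h⟩).1 = x, fun x y h => h.1, ?_, ?_, ?_⟩
  · intro x y h
    have h1 := hmem ⟨s(x, y), h⟩
    rcases Sym2.mem_iff.mp h1 with h2 | h2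
    · exact Or.inl ⟨h, h2⟩
    · refine Or.inr ⟨h.symm, ?_⟩
      rw [← hswap x y h]
      exact h2
  · rintro x y ⟨h, h1⟩ ⟨h', h2⟩
    rw [hswap y x h'] at h2
    rw [h1] at h2
    exact h.ne h2
  · intro x
    have : (univ.filter (fun y => ∃ h : G.Adj x y, (f ⟨s(x, y), h⟩).1 = x)).card ≤
        (univ : Finset (Fin 3)).card := by
      apply Finset.card_le_card_of_injOn
        (fun y => if h : G.Adj x y then (f ⟨s(x, y), h⟩).2 else 0)
      · intro y _
        simp
      · intro y hy y' hy' he
        simp only [coe_filter, mem_univ, true_and, Set.mem_ofPred_eq] at hy hy'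
        obtain ⟨h1, h2⟩ := hy
        obtain ⟨h3, h4⟩ := hy'
        simp only [dif_pos h1, dif_pos h3] at he
        have h5 : f ⟨s(x, y), h1⟩ = f ⟨s(x, y'), h3⟩ := Prod.ext (h2.trans h4.symm) he
        have h6 := congrArg Subtype.val (hf h5)
        exact Sym2.congr_right.mp h6
    simpa using this

open Classical in
/-- one out-edge for every vertex of out-degree `3`, with small loads -/
theorem select {V : Type} [Fintype V] (O : V → V → Prop) :
    ∃ f : V → V, (∀ y, (univ.filter (fun x => O y x)).card = 3 → O y (f y)) ∧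
      ∀ x, (univ.filter (fun y => (univ.filter (fun z => O y z)).card = 3 ∧ f y = x)).card ≤
        ((univ.filter (fun y => O y x)).card + 2) / 3 := by
  set cap : V → ℕ := fun x => ((univ.filter (fun y => O y x)).card + 2) / 3 with hcap
  obtain ⟨g, hg, hgT⟩ := (Finset.all_card_le_biUnion_card_iff_exists_injective
    (fun y : {y // (univ.filter (fun x => O y x)).card = 3} =>
      (univ.filter (fun x => O y.1 x)).sigma (fun x => range (cap x)))).mp (by
    intro s
    have h1 : s.biUnion (fun y : {y // (univ.filter (fun x => O y x)).card = 3} =>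
        (univ.filter (fun x => O y.1 x)).sigma (fun x => range (cap x))) =
        (univ.filter (fun x => ∃ y ∈ s, O y.1 x)).sigma (fun x => range (cap x)) := by
      ext ⟨x, j⟩
      simp only [mem_biUnion, mem_sigma, mem_filter, mem_univ, true_and, mem_range]
      constructor
      · rintro ⟨y, h1, h2, h3⟩
        exact ⟨⟨y, h1, h2⟩, h3⟩
      · rintro ⟨⟨y, h1, h2⟩, h3⟩
        exact ⟨y, h1, h2, h3⟩
    rw [h1, Finset.card_sigma]
    simp only [card_range]
    have h2 : 3 * s.card = ∑ y ∈ s, (univ.filter (fun x => O y.1 x)).card := by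
      rw [Finset.sum_congr rfl (fun y _ => y.2), Finset.sum_const, smul_eq_mul, mul_comm]
    have h3 : ∑ y ∈ s, (univ.filter (fun x => O y.1 x)).card =
        ∑ x ∈ univ.filter (fun x => ∃ y ∈ s, O y.1 x), (s.filter (fun y => O y.1 x)).card := by
      have h4 : ∀ y ∈ s, (univ.filter (fun x => O y.1 x)).card =
          ((univ.filter (fun x => ∃ y ∈ s, O y.1 x)).filter (fun x => O y.1 x)).card := by
        intro y hy
        congr 1
        ext x
        simp only [mem_filter, mem_univ, true_and]
        exact ⟨fun h => ⟨⟨y, hy, h⟩, h⟩, fun h => h.2⟩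
      rw [Finset.sum_congr rfl h4]
      simp only [Finset.card_filter]
      rw [Finset.sum_comm]
    have h5 : ∀ x, (s.filter (fun y => O y.1 x)).card ≤ 3 * cap x := by
      intro x
      have h6 : (s.filter (fun y => O y.1 x)).card ≤ (univ.filter (fun y => O y x)).card := by
        rw [← Finset.card_image_of_injective _ Subtype.val_injective]
        apply Finset.card_le_card
        intro y hy
        simp only [mem_image, mem_filter] at hy
        obtain ⟨y', ⟨_, h7⟩, rfl⟩ := hy
        simp [h7]
      have h8 : cap x = ((univ.filter (fun y => O y x)).card + 2) / 3 := rfl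
      omega
    have h9 := Finset.sum_le_sum (s := univ.filter (fun x => ∃ y ∈ s, O y.1 x))
      (fun x _ => h5 x)
    rw [← Finset.mul_sum] at h9
    rw [h3] at h2
    rw [← h2] at h9
    omega)
  refine ⟨fun y => if h : (univ.filter (fun x => O y x)).card = 3 then (g ⟨y, h⟩).1 else y,
    ?_, ?_⟩
  · intro y h
    simp only [dif_pos h]
    have := hgT ⟨y, h⟩
    simp only [mem_sigma, mem_filter, mem_univ, true_and] at this
    exact this.1
  · intro x
    have h0 : (univ.filter (fun y => (univ.filter (fun z => O y z)).card = 3 ∧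
        (if h : (univ.filter (fun x => O y x)).card = 3 then (g ⟨y, h⟩).1 else y) = x)).card ≤
        (range (cap x)).card := by
      apply Finset.card_le_card_of_injOn
        (fun y => if h : (univ.filter (fun x => O y x)).card = 3 then (g ⟨y, h⟩).2 else 0)
      · intro y hy
        simp only [coe_filter, mem_univ, true_and, Set.mem_ofPred_eq] at hy
        obtain ⟨h1, h2⟩ := hy
        rw [dif_pos h1] at h2
        simp only [dif_pos h1]
        have := hgT ⟨y, h1⟩
        simp only [mem_sigma, mem_filter, mem_univ, true_and] at this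
        rw [h2] at this
        exact this.2
      · intro y hy y' hy' he
        simp only [coe_filter, mem_univ, true_and, Set.mem_ofPred_eq] at hy hy'
        obtain ⟨h1, h2⟩ := hy
        obtain ⟨h3, h4⟩ := hy'
        rw [dif_pos h1] at h2
        rw [dif_pos h3] at h4
        simp only [dif_pos h1, dif_pos h3] at he
        have h5 : g ⟨y, h1⟩ = g ⟨y', h3⟩ := by
          apply Sigma.ext
          · exact h2.trans h4.symm
          · exact heq_of_eq he
        exact congrArg Subtype.val (hg h5)
    rw [card_range] at h0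
    exact h0

open Classical in
/-- The upper bound for all graphs in which every vertex set `S` spans at most `3 |S|` edges. -/
theorem main_rep {V : Type} [Fintype V] (G : SimpleGraph V)
    (hG : ∀ S : Finset V,
      (univ.filter (fun e : Sym2 V => e ∈ G.edgeSet ∧ ∀ v ∈ e, v ∈ S)).card ≤ 3 * S.card) :
    ∃ B, IsRep G (G.maxDegree / 3 + 2) B := by
  have hdeg : ∀ v, ed G v ≤ G.maxDegree := by
    intro v
    rw [ed_eq]
    refine le_trans (le_of_eq ?_) (G.degree_le_maxDegree v)
    rw [← SimpleGraph.card_neighborFinset_eq_degree]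
    congr 1
    ext x
    simp
  by_cases hΔ : G.maxDegree ≤ 5
  · apply rep_of_data G G le_rfl (fun _ => ∅) (by simp) (fun x y h => Or.inl h)
    · intro v
      have := hdeg v
      simp
      omega
    · intro v _
      have := hdeg v
      simp
      omega
  push Not at hΔ
  obtain ⟨O, o1, o2, o3, o4⟩ := orient G hG
  obtain ⟨f, f1, f2⟩ := select O
  obtain ⟨W, hW⟩ : ∃ W : V → Prop, ∀ y, W y ↔ (univ.filter (fun x => O y x)).card = 3 :=
    ⟨_, fun _ => Iff.rfl⟩
  simp only [← hW] at f1 f2
  obtain ⟨U, hU⟩ : ∃ U : SimpleGraph V, ∀ x y, U.Adj x y ↔ (W x ∧ f x = y) ∨ (W y ∧ f y = x) := by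
    refine ⟨SimpleGraph.mk (fun x y => (W x ∧ f x = y) ∨ (W y ∧ f y = x)) ?_ ?_,
      fun _ _ => Iff.rfl⟩
    · exact ⟨fun x y h => h.symm⟩
    · refine ⟨fun x h => ?_⟩
      have h1 : W x ∧ f x = x := by
        rcases h with h | h <;> exact h
      have h2 := f1 x h1.1
      rw [h1.2] at h2
      exact (o1 x x h2).ne rfl
  have hUG : U ≤ G := by
    intro x y h
    rcases (hU x y).mp h with ⟨h1, rfl⟩ | ⟨h1, rfl⟩
    · exact o1 _ _ (f1 x h1)
    · exact (o1 _ _ (f1 y h1)).symm
  obtain ⟨C, hC⟩ : ∃ C : V → Finset V, ∀ x y, y ∈ C x ↔ O y x ∧ ¬ (W y ∧ f y = x) :=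
    ⟨fun x => univ.filter (fun y => O y x ∧ ¬ (W y ∧ f y = x)), fun x y => by simp⟩
  -- the numbers
  have n1 : ∀ v, ed G v = (univ.filter (fun x => O v x)).card +
      (univ.filter (fun x => O x v)).card := by
    intro v
    rw [ed_eq, ← Finset.card_union_of_disjoint]
    · congr 1
      ext x
      simp only [mem_filter, mem_univ, true_and, mem_union]
      exact ⟨fun h => o2 v x h, fun h => h.elim (fun h => o1 _ _ h) (fun h => (o1 _ _ h).symm)⟩
    · rw [Finset.disjoint_left]
      intro x h1 h2
      simp only [mem_filter, mem_univ, true_and] at h1 h2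
      exact o3 _ _ h1 h2
  have n2 : ∀ v, (C v).card + (univ.filter (fun y => W y ∧ f y = v)).card =
      (univ.filter (fun x => O x v)).card := by
    intro v
    rw [← Finset.card_union_of_disjoint]
    · congr 1
      ext x
      simp only [mem_filter, mem_univ, true_and, mem_union, hC]
      constructor
      · rintro (h | ⟨h1, h2⟩)
        · exact h.1
        · have := f1 x h1
          rw [h2] at this
          exact this
      · intro h
        by_cases h1 : W x ∧ f x = v
        · exact Or.inr h1
        · exact Or.inl ⟨h, h1⟩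
    · rw [Finset.disjoint_left]
      intro x h1 h2
      simp only [mem_filter, mem_univ, true_and, hC] at h1 h2
      exact h1.2 h2
  have n3 : ∀ v, ed U v ≤ (if W v then 1 else 0) +
      (univ.filter (fun y => W y ∧ f y = v)).card := by
    intro v
    rw [ed_eq]
    have h1 : univ.filter (fun x => U.Adj v x) ⊆
        (if W v then {f v} else ∅) ∪ univ.filter (fun y => W y ∧ f y = v) := by
      intro x hx
      simp only [mem_filter, mem_univ, true_and, hU] at hx
      rw [mem_union]
      rcases hx with ⟨h1, h2⟩ | h2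
      · left
        rw [if_pos h1, h2]
        simp
      · right
        simp [h2]
    refine (Finset.card_le_card h1).trans ((card_union_le _ _).trans ?_)
    apply Nat.add_le_add_right
    split_ifs <;> simp
  have n4 : ∀ v, (univ.filter (fun x => v ∈ C x)).card ≤
      if W v then 2 else (univ.filter (fun x => O v x)).card := by
    intro v
    by_cases h : W v
    · rw [if_pos h]
      have h1 : univ.filter (fun x => v ∈ C x) ⊆ (univ.filter (fun x => O v x)).erase (f v) := by
        intro x hx
        simp only [mem_filter, mem_univ, true_and, hC, mem_erase] at hx ⊢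
        exact ⟨fun h2 => hx.2 ⟨h, h2.symm⟩, hx.1⟩
      have h2 := Finset.card_le_card h1
      rw [Finset.card_erase_of_mem (by simp [f1 v h]), (hW v).mp h] at h2
      exact h2
    · rw [if_neg h]
      apply Finset.card_le_card
      intro x hx
      simp only [mem_filter, mem_univ, true_and, hC] at hx ⊢
      exact hx.1
  apply rep_of_data G U hUG C ?_ ?_
  · intro v
    have m0 := hdeg v
    have m1 := n1 v
    have m2 := n2 v
    have m3 := n3 v
    have m4 := n4 v
    have m5 := o4 v
    have m6 := f2 v
    by_cases h : W v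
    · have m7 := (hW v).mp h
      rw [if_pos h] at m3 m4
      omega
    · have m7 : (univ.filter (fun x => O v x)).card ≠ 3 := fun h' => h ((hW v).mpr h')
      rw [if_neg h] at m3 m4
      omega
  · intro v hv
    have m0 := hdeg v
    have m1 := n1 v
    have m2 := n2 v
    have m3 := n3 v
    have m4 := n4 v
    have m5 := o4 v
    have m6 := f2 v
    by_cases h : W v
    · have m7 := (hW v).mp h
      rw [if_pos h] at m3 m4
      omega
    · have m7 : (univ.filter (fun x => O v x)).card ≠ 3 := fun h' => h ((hW v).mpr h')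
      rw [if_neg h] at m3 m4
      omega
  · intro x y hy
    exact (o1 _ _ ((hC x y).mp hy).1).symm
  · intro x y h
    rcases o2 x y h with h1 | h1
    · by_cases h2 : W x ∧ f x = y
      · exact Or.inl ((hU x y).mpr (Or.inl h2))
      · exact Or.inr (Or.inr ((hC y x).mpr ⟨h1, h2⟩))
    · by_cases h2 : W y ∧ f y = x
      · exact Or.inl ((hU x y).mpr (Or.inr h2))
      · exact Or.inr (Or.inl ((hC x y).mpr ⟨h1, h2⟩))

end Pool.Agent.V11106.UB
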